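import Pool.Agent.Lib.MP_40f35d_gt.Pl.Lift
import Pool.Agent.Lib.MP_40f35d_gt.Sw.Defs

/-!
# The angle structure of a tree of regions

Coarse regions `R a` (labels `a` in a tree `G`) and fine regions `R' x` inside `R (g x)`: the half
turns between reference points give `Ang`, and the lifts on the products of unions of fine regions
give `AngPair`.
-/

namespace Pool.Agent.Lib.MP_40f35d_gt.Pl

open Pool.Agent.Lib.MP_40f35d_gt.Sw (Ea Ang AngPair hw)

/-- The half turns of the reference point from `z a` to `z b` seen from `z c`. -/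
noncomputable def hh {T : Type} (R : T → Set V) (z : T → V) (a b c : T) : ℤ :=
  open Classical in
  if h : ∃ f, Pot (R a ∪ R b) (z c) f then h.choose (z b) - h.choose (z a) else 0

section

variable {T : Type} {R : T → Set V} {z : T → V}

theorem hh_eq (hz : ∀ a, z a ∈ R a) {a b c : T} (hC : Conn (R a ∪ R b)) {f : V → ℤ}
    (hf : Pot (R a ∪ R b) (z c) f) : hh R z a b c = f (z b) - f (z a) := by
  have h : ∃ f, Pot (R a ∪ R b) (z c) f := ⟨f, hf⟩
  unfold hh
  rw [dif_pos h]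
  exact Pot.unique hC h.choose_spec hf (Or.inl (hz a)) (Or.inr (hz b))

variable [DecidableEq T]

/-- The difference of two lifts which are normalised at the reference points. -/
theorem hh_step (hz : ∀ a, z a ∈ R a) {G : SimpleGraph T}
    (hd : ∀ a b, a ≠ b → Disjoint (R a) (R b)) (hRc : ∀ a, Conn (R a)) (hRa : ∀ a, Acyclic (R a))
    (hR2 : ∀ a b, G.Adj a b → Conn (R a ∪ R b) ∧ Acyclic (R a ∪ R b)) {a a' c : T}
    (haa : Ea G a a') (hac : a ≠ c) (hac' : a' ≠ c) {m m' : V → V → ℤ}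
    (hm : IsLift (R a) (R c) m) (hm' : IsLift (R a') (R c) m') {A : Set V} (hA : Conn A)
    (hAs : A ⊆ R a ∪ R a') {x x' y : V} (hxA : x ∈ A) (hx : x ∈ R a) (hxA' : x' ∈ A)
    (hx' : x' ∈ R a') (hy : y ∈ R c) {F : V → ℤ} (hF : Pot A y F) :
    (F x' - (m' x' y - m' (z a') (z c))) - (F x - (m x y - m (z a) (z c))) =
      hw (hh R z) a a' c := by
  have hCA : Conn (R a ∪ R a') ∧ Acyclic (R a ∪ R a') := by
    rcases haa with h | h
    · subst h
      rw [Set.union_self]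
      exact ⟨hRc a, hRa a⟩
    · exact hR2 a a' h
  have hdis : Disjoint (R a ∪ R a') (R c) :=
    Set.disjoint_union_left.2 ⟨hd a c hac, hd a' c hac'⟩
  obtain ⟨n, hn⟩ := exists_lift hdis hCA.1 hCA.2 (hRa c)
  have e1 := IsLift.unique (hRc a) (hRc c) hm (hn.mono Set.subset_union_left (le_refl _))
    (hz a) hx (hz c) hy
  have e2 := IsLift.unique (hRc a') (hRc c) hm' (hn.mono Set.subset_union_right (le_refl _))
    (hz a') hx' (hz c) hy
  have e3 := Pot.unique hA hF ((hn.pot hy).mono hAs) hxA hxA'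
  have e4 : n (z a') (z c) - n (z a) (z c) = hw (hh R z) a a' c := by
    unfold hw
    split_ifs with h
    · rw [h, sub_self]
    · exact (hh_eq hz hCA.1 (hn.pot (hz c))).symm
  linarith

/-- **The angle structure of regions.** -/
theorem angle_of_regions {W : Type} (G : SimpleGraph T) (Gm : SimpleGraph W) (g : W → T)
    (R : T → Set V) (R' : W → Set V) (hd : ∀ a b, a ≠ b → Disjoint (R a) (R b))
    (hne : ∀ a, (R a).Nonempty) (hRc : ∀ a, Conn (R a)) (hRa : ∀ a, Acyclic (R a))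
    (hR2 : ∀ a b, G.Adj a b → Conn (R a ∪ R b) ∧ Acyclic (R a ∪ R b))
    (hd' : ∀ x y, x ≠ y → Disjoint (R' x) (R' y)) (hne' : ∀ x, (R' x).Nonempty)
    (hR2' : ∀ x y, Gm.Adj x y → Conn (R' x ∪ R' y))
    (hD : ∀ D : Set W, Sw.Conn Gm D → Conn (⋃ x ∈ D, R' x) ∧ Acyclic (⋃ x ∈ D, R' x))
    (hsub : ∀ x, R' x ⊆ R (g x)) (hg : ∀ x y, Gm.Adj x y → Ea G (g x) (g y)) :
    ∃ (h : T → T → T → ℤ) (sg : T → T → ℤ), Ang G h sg ∧ AngPair Gm g h := by
  choose z hz using hne
  choose z' hz' using hne'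
  have hzne : ∀ a b, a ≠ b → z a ≠ z b := fun a b hab h0 =>
    Set.disjoint_left.1 (hd a b hab) (hz a) (by rw [h0]; exact hz b)
  have hlift : ∀ a c, ∃ n, a ≠ c → IsLift (R a) (R c) n := by
    intro a c
    by_cases hac : a = c
    · exact ⟨fun _ _ => 0, fun h0 => absurd hac h0⟩
    · obtain ⟨n, hn⟩ := exists_lift (hd a c hac) (hRc a) (hRa a) (hRa c)
      exact ⟨n, fun _ => hn⟩
  choose n hn using hlift
  have hnot : ∀ a b c, a ≠ c → b ≠ c → z c ∉ R a ∪ R b := by
    intro a b c h1 h2 h0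
    rcases h0 with h0 | h0
    · exact Set.disjoint_left.1 (hd a c h1) h0 (hz c)
    · exact Set.disjoint_left.1 (hd b c h2) h0 (hz c)
  refine ⟨hh R z, fun a b => rho (z a - z b), ⟨?_, ?_, ?_, ?_⟩, ?_⟩
  · -- anti
    intro a b c hab h1 h2
    obtain ⟨hC, hA⟩ := hR2 a b hab
    obtain ⟨f, hf⟩ := exists_pot hA (hnot a b c h1 h2)
    have hC' : Conn (R b ∪ R a) := by rw [Set.union_comm]; exact hC
    have hf' : Pot (R b ∪ R a) (z c) f := by rw [Set.union_comm]; exact hf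
    rw [hh_eq hz hC hf, hh_eq hz hC' hf']
    ring
  · -- flat
    intro a b c d hab hcd h1 h2 h3 h4
    obtain ⟨hC, hA⟩ := hR2 a b hab
    obtain ⟨hC', hA'⟩ := hR2 c d hcd
    have hdis : Disjoint (R a ∪ R b) (R c ∪ R d) :=
      Set.disjoint_union_left.2 ⟨Set.disjoint_union_right.2 ⟨hd a c h1, hd a d h2⟩,
        Set.disjoint_union_right.2 ⟨hd b c h3, hd b d h4⟩⟩
    obtain ⟨N, hN⟩ := exists_lift hdis hC hA hA'
    rw [hh_eq hz hC (hN.pot (Or.inl (hz c))), hh_eq hz hC' (hN.swap.pot (Or.inr (hz b))),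
      hh_eq hz hC' (hN.swap.pot (Or.inl (hz a))), hh_eq hz hC (hN.pot (Or.inr (hz d)))]
    ring
  · -- parity
    intro a b c hab h1 h2
    obtain ⟨hC, hA⟩ := hR2 a b hab
    obtain ⟨f, hf⟩ := exists_pot hA (hnot a b c h1 h2)
    rw [hh_eq hz hC hf]
    exact hf.par hC (hnot a b c h1 h2) (Or.inl (hz a)) (Or.inr (hz b))
  · -- odd
    intro a b hab
    have h1 : z a - z b ≠ 0 := sub_ne_zero.2 (hzne a b hab)
    have h2 := rho_odd h1
    rw [neg_sub] at h2
    omega
  · -- pairs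
    intro D D' hDD hDc hDc'
    obtain ⟨c1, a1⟩ := hD D hDc
    obtain ⟨c2, a2⟩ := hD D' hDc'
    have hdis : Disjoint (⋃ x ∈ D, R' x) (⋃ x ∈ D', R' x) := by
      rw [Set.disjoint_iUnion₂_left]
      intro x hx
      rw [Set.disjoint_iUnion₂_right]
      intro p hp
      exact hd' x p fun h0 => Set.disjoint_left.1 hDD hx (by rw [h0]; exact hp)
    obtain ⟨L, hL⟩ := exists_lift hdis c1 a1 a2
    have hsubD : ∀ {E : Set W} {x}, x ∈ E → R' x ⊆ ⋃ x ∈ E, R' x := fun {E x} hx =>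
      Set.subset_biUnion_of_mem (u := fun x => R' x) hx
    refine ⟨fun x p => L (z' x) (z' p) -
      (n (g x) (g p) (z' x) (z' p) - n (g x) (g p) (z (g x)) (z (g p))), ?_, ?_⟩
    · intro x hx x' hx' p hp hxx hgx hgx'
      have hA : R' x ∪ R' x' ⊆ R (g x) ∪ R (g x') :=
        Set.union_subset_union (hsub x) (hsub x')
      exact hh_step hz hd hRc hRa hR2 (hg x x' hxx) hgx hgx' (hn _ _ hgx) (hn _ _ hgx')
        (hR2' x x' hxx) hA (Or.inl (hz' x)) (hsub x (hz' x)) (Or.inr (hz' x')) (hsub x' (hz' x'))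
        (hsub p (hz' p)) ((hL.pot (hsubD hp (hz' p))).mono
          (Set.union_subset (hsubD hx) (hsubD hx')))
    · intro x hx p hp p' hp' hpp hgp hgp'
      have hA : R' p ∪ R' p' ⊆ R (g p) ∪ R (g p') :=
        Set.union_subset_union (hsub p) (hsub p')
      exact hh_step hz hd hRc hRa hR2 (hg p p' hpp) hgp.symm hgp'.symm (hn _ _ hgp).swap
        (hn _ _ hgp').swap
        (hR2' p p' hpp) hA (Or.inl (hz' p)) (hsub p (hz' p)) (Or.inr (hz' p')) (hsub p' (hz' p'))
        (hsub x (hz' x)) ((hL.swap.pot (hsubD hx (hz' x))).mono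
          (Set.union_subset (hsubD hp) (hsubD hp')))

end

end Pool.Agent.Lib.MP_40f35d_gt.Pl
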