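import Pool.Agent.Lib.MP_40f35d_gt.Pl.Gr

/-!
# Filling a finite set of lattice points
-/

set_option autoImplicit false

open Relation

namespace Pool.Agent.Lib.MP_40f35d_gt.Pl

theorem fill_rsymm {S : Set V} {z w : V} (h : ReflTransGen (Stp S) z w) :
    ReflTransGen (Stp S) w z := by
  induction h with
  | refl => exact ReflTransGen.refl
  | tail _ h2 ih => exact ReflTransGen.head ⟨h2.2.1, h2.1, h2.2.2.symm⟩ ih

theorem fill_rmono {S S' : Set V} (hS : S ⊆ S') {z w : V} (h : ReflTransGen (Stp S) z w) :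
    ReflTransGen (Stp S') z w := stp_mono hS h

theorem cmp_eq {N : Set V} {z w : V} (h : w ∈ Cmp N z) : Cmp N w = Cmp N z := by
  ext u
  exact ⟨fun hu => ReflTransGen.trans h hu, fun hu => ReflTransGen.trans (fill_rsymm h) hu⟩

theorem subset_fill (N : Set V) : N ⊆ fill N := by
  intro z hz
  refine (Set.finite_singleton z).subset ?_
  intro w hw
  rcases ReflTransGen.cases_head hw with h | ⟨c, h, _⟩
  · exact h.symm
  · exact absurd hz h.1

theorem exists_box {N : Set V} (hN : N.Finite) : ∃ R : ℤ, 0 ≤ R ∧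
    ∀ z ∈ N, -R ≤ z.1 ∧ z.1 ≤ R ∧ -R ≤ z.2 ∧ z.2 ≤ R := by
  obtain ⟨M1, h1⟩ := (hN.image (fun z : V => |z.1|)).bddAbove
  obtain ⟨M2, h2⟩ := (hN.image (fun z : V => |z.2|)).bddAbove
  refine ⟨max 0 (max M1 M2), le_max_left _ _, fun z hz => ?_⟩
  have a1 : |z.1| ≤ M1 := h1 ⟨z, hz, rfl⟩
  have a2 : |z.2| ≤ M2 := h2 ⟨z, hz, rfl⟩
  have b1 := abs_le.1 (a1.trans ((le_max_left M1 M2).trans (le_max_right 0 _)))
  have b2 := abs_le.1 (a2.trans ((le_max_right M1 M2).trans (le_max_right 0 _)))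
  exact ⟨b1.1, b1.2, b2.1, b2.2⟩

/-- The points outside a box are connected outside the box. -/
theorem outside_conn {S : Set V} {R : ℤ}
    (hS : ∀ z : V, z.1 < -R ∨ R < z.1 ∨ z.2 < -R ∨ R < z.2 → z ∈ S) {z : V}
    (hz : z.1 < -R ∨ R < z.1 ∨ z.2 < -R ∨ R < z.2) :
    ReflTransGen (Stp S) z (R + 1, R + 1) := by
  obtain ⟨x, y⟩ := z
  simp only at hz
  have hcol : ∀ x y y' : ℤ, (x < -R ∨ R < x) → ReflTransGen (Stp S) (x, y) (x, y') := by
    intro x y y' hx
    refine rect_walk (a := x) (b := x) (c := min y y') (d := max y y') ?_ le_rfl le_rfl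
      (min_le_left _ _) (le_max_left _ _) le_rfl le_rfl (min_le_right _ _) (le_max_right _ _)
    intro s t h1 h2 _ _
    refine hS (s, t) ?_
    simp only
    omega
  have hrow : ∀ x x' y : ℤ, (y < -R ∨ R < y) → ReflTransGen (Stp S) (x, y) (x', y) := by
    intro x x' y hy
    refine rect_walk (a := min x x') (b := max x x') (c := y) (d := y) ?_
      (min_le_left _ _) (le_max_left _ _) le_rfl le_rfl (min_le_right _ _) (le_max_right _ _)
      le_rfl le_rfl
    intro s t _ _ h1 h2
    refine hS (s, t) ?_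
    simp only
    omega
  by_cases hx : x < -R ∨ R < x
  · exact (hcol x y (R + 1) hx).trans (hrow x (R + 1) (R + 1) (Or.inr (by omega)))
  · have hy : y < -R ∨ R < y := by omega
    exact (hrow x (R + 1) y hy).trans (hcol (R + 1) y (R + 1) (Or.inr (by omega)))

theorem out_infinite (R : ℤ) : {z : V | R < z.1}.Infinite := by
  refine Set.infinite_of_injective_forall_mem (f := fun n : ℕ => ((R + 1 + n, 0) : V)) ?_ ?_
  · intro m n h
    simp only [Prod.mk.injEq] at h
    omega
  · intro n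
    change R < R + 1 + (n : ℤ)
    omega

theorem cmp_outside {N : Set V} {R : ℤ}
    (hN : ∀ z ∈ N, -R ≤ z.1 ∧ z.1 ≤ R ∧ -R ≤ z.2 ∧ z.2 ≤ R) {z w : V}
    (hz : z.1 < -R ∨ R < z.1 ∨ z.2 < -R ∨ R < z.2)
    (hw : w.1 < -R ∨ R < w.1 ∨ w.2 < -R ∨ R < w.2) : w ∈ Cmp N z := by
  have hS : ∀ z : V, z.1 < -R ∨ R < z.1 ∨ z.2 < -R ∨ R < z.2 → z ∈ Nᶜ := by
    intro z hz hzN
    have := hN z hzN
    omega
  exact (outside_conn hS hz).trans (fill_rsymm (outside_conn hS hw))

theorem not_fill_outside {N : Set V} {R : ℤ}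
    (hN : ∀ z ∈ N, -R ≤ z.1 ∧ z.1 ≤ R ∧ -R ≤ z.2 ∧ z.2 ≤ R) {z : V}
    (hz : z.1 < -R ∨ R < z.1 ∨ z.2 < -R ∨ R < z.2) : z ∉ fill N := by
  intro h
  exact out_infinite R (Set.Finite.subset h fun w hw =>
    cmp_outside hN hz (Or.inr (Or.inl hw)))

theorem fill_finite {N : Set V} (hN : N.Finite) : (fill N).Finite := by
  obtain ⟨R, -, hR⟩ := exists_box hN
  refine ((Set.finite_Icc (-R) R).prod (Set.finite_Icc (-R) R)).subset ?_
  intro z hz
  have h : ¬ (z.1 < -R ∨ R < z.1 ∨ z.2 < -R ∨ R < z.2) := fun h => not_fill_outside hR h hz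
  refine ⟨⟨?_, ?_⟩, ?_, ?_⟩ <;> omega

theorem fill_compl {N : Set V} (hN : N.Finite) : Conn (fill N)ᶜ := by
  obtain ⟨R, -, hR⟩ := exists_box hN
  have key : ∀ z, z ∉ fill N → ∀ u, ReflTransGen (Stp Nᶜ) z u →
      ReflTransGen (Stp (fill N)ᶜ) z u := by
    intro z hz u hu
    induction hu with
    | refl => exact ReflTransGen.refl
    | tail hab hbc ih =>
      rename_i b c
      have hb : b ∉ fill N := by
        intro h
        have h1 : (Cmp N b).Finite := h
        rw [cmp_eq (show b ∈ Cmp N z from hab)] at h1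
        exact hz h1
      have hc : c ∉ fill N := by
        intro h
        have h1 : (Cmp N c).Finite := h
        rw [cmp_eq (show c ∈ Cmp N z from hab.tail hbc)] at h1
        exact hz h1
      exact ih.tail ⟨hb, hc, hbc.2.2⟩
  have key2 : ∀ z, z ∉ fill N → ReflTransGen (Stp (fill N)ᶜ) z (R + 1, R + 1) := by
    intro z hz
    have h1 : ∃ u ∈ Cmp N z, u.1 < -R ∨ R < u.1 ∨ u.2 < -R ∨ R < u.2 := by
      by_contra hcon
      push Not at hcon
      refine hz (((Set.finite_Icc (-R) R).prod (Set.finite_Icc (-R) R)).subset ?_)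
      intro u hu
      have := hcon u hu
      exact ⟨⟨this.1, this.2.1⟩, this.2.2.1, this.2.2.2⟩
    obtain ⟨u, hu, hu2⟩ := h1
    exact (key z hz u hu).trans (outside_conn (fun w hw => not_fill_outside hR hw) hu2)
  intro z hz w hw
  exact (key2 z hz).trans (fill_rsymm (key2 w hw))

theorem fill_conn' {N : Set V} (hc : Conn N) : Conn (fill N) := by
  classical
  have key : ∀ z ∈ fill N, ∃ u ∈ N, ReflTransGen (Stp (fill N)) z u := by
    intro z hz
    have h1 : ∃ k : ℕ, (z.1 + k, z.2) ∈ N := by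
      by_contra hcon
      push Not at hcon
      have h2 : ∀ k : ℕ, ((z.1 + k, z.2) : V) ∈ Cmp N z := by
        intro k
        induction k with
        | zero => simpa using mem_cmp_self N z
        | succ k ih =>
          refine ReflTransGen.tail ih ⟨hcon k, hcon (k + 1), Or.inl ?_⟩
          simp only [Prod.mk_add_mk, add_zero, Nat.cast_add, Nat.cast_one]
          rw [add_assoc]
      refine Set.infinite_of_injective_forall_mem (f := fun k : ℕ => ((z.1 + k, z.2) : V)) ?_ h2 hz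
      intro m n h
      simp only [Prod.mk.injEq] at h
      omega
    have hk := Nat.find_spec h1
    have hmin := fun j (hj : j < Nat.find h1) => Nat.find_min h1 hj
    refine ⟨_, hk, ?_⟩
    have hcm : ∀ j : ℕ, j < Nat.find h1 → ((z.1 + j, z.2) : V) ∈ Cmp N z := by
      intro j
      induction j with
      | zero => intro _; simpa using mem_cmp_self N z
      | succ j ih =>
        intro hj
        refine ReflTransGen.tail (ih (by omega)) ⟨hmin j (by omega), hmin (j + 1) hj, Or.inl ?_⟩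
        simp only [Prod.mk_add_mk, add_zero, Nat.cast_add, Nat.cast_one]
        rw [add_assoc]
    refine rect_walk (x := z.1) (y := z.2) (a := z.1) (b := z.1 + (Nat.find h1 : ℤ))
      (c := z.2) (d := z.2) ?_ le_rfl (by omega) le_rfl le_rfl (by omega) le_rfl le_rfl le_rfl
    intro s t hs1 hs2 ht1 ht2
    obtain rfl : t = z.2 := le_antisymm ht2 ht1
    obtain ⟨j, hj⟩ := Int.eq_ofNat_of_zero_le (sub_nonneg.2 hs1)
    obtain rfl : s = z.1 + j := by omega
    rcases lt_or_eq_of_le (show j ≤ Nat.find h1 by omega) with h3 | h3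
    · have h4 : (Cmp N (z.1 + (j : ℤ), z.2)).Finite := by
        rw [cmp_eq (hcm j h3)]
        exact hz
      exact h4
    · rw [h3]
      exact subset_fill N hk
  intro z hz w hw
  obtain ⟨u, hu, h1⟩ := key z hz
  obtain ⟨u', hu', h2⟩ := key w hw
  exact (h1.trans (fill_rmono (subset_fill N) (hc u hu u' hu'))).trans (fill_rsymm h2)

theorem fill_conn {N : Set V} (_ : N.Finite) (hc : Conn N) (_ : N.Nonempty) : Conn (fill N) :=
  fill_conn' hc

end Pool.Agent.Lib.MP_40f35d_gt.Pl
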