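import Pool.Agent.Lib.MP_40f35d_gt.Pl.Nb
import Pool.Agent.Lib.MP_40f35d_gt.Pl.Fill

/-!
# Existence of the nested grids
-/

set_option autoImplicit false

open Set Topology Relation

namespace Pool.Agent.Lib.MP_40f35d_gt.Pl

theorem div_succ {k : ℕ} (hk : 0 < k) (z : ℤ) :
    (z + 1) / (k : ℤ) = z / (k : ℤ) ∨ (k : ℤ) ∣ z + 1 := by
  rcases div_step hk z with h | h
  · exact Or.inl h
  · right
    obtain ⟨h1, h2⟩ := (div_eq_iff' hk (z + 1) (z / (k : ℤ) + 1)).1 h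
    obtain ⟨h3, h4⟩ := (div_eq_iff' hk z (z / (k : ℤ))).1 rfl
    refine ⟨z / (k : ℤ) + 1, ?_⟩
    have h5 : (k : ℤ) * (z / (k : ℤ) + 1) = (k : ℤ) * (z / (k : ℤ)) + k := by ring
    omega

/-- A finite set with connected complement without corners is a tile domain. -/
theorem td_of_cor {N : Set V} {k : ℕ} (hk : 0 < k) (hf : N.Finite) (hc : Conn Nᶜ)
    (hcor : ∀ z ∈ N, ¬ ((k : ℤ) ∣ z.1 ∧ (k : ℤ) ∣ z.2)) : Td N (fl k) where
  fin := hf
  compl := hc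
  out := by
    intro z _
    have hk' : (k : ℤ) ≠ 0 := by exact_mod_cast hk.ne'
    refine ⟨((k : ℤ) * (z.1 / (k : ℤ)), (k : ℤ) * (z.2 / (k : ℤ))), fun h => ?_, ?_⟩
    · exact hcor _ h ⟨dvd_mul_right _ _, dvd_mul_right _ _⟩
    · unfold fl
      simp only
      rw [Int.mul_ediv_cancel_left _ hk', Int.mul_ediv_cancel_left _ hk']
  blk := fun z w h => fl_blk hk h (fun u hu => hu)
  tri := by
    intro b z _ _ h3
    have hc3 := hcor _ h3
    have e1 : (z + (1, 1)).1 = z.1 + 1 := rfl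
    have e2 : (z + (1, 1)).2 = z.2 + 1 := rfl
    rw [e1, e2] at hc3
    cases b
    · rcases div_succ hk z.2 with h | h
      · left
        show (z.1 / (k : ℤ), z.2 / (k : ℤ)) = ((z.1 + 0) / (k : ℤ), (z.2 + 1) / (k : ℤ))
        rw [h, add_zero]
      · rcases div_succ hk z.1 with h' | h'
        · right
          left
          show ((z.1 + 0) / (k : ℤ), (z.2 + 1) / (k : ℤ)) = ((z.1 + 1) / (k : ℤ), (z.2 + 1) / (k : ℤ))
          rw [h', add_zero]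
        · exact absurd ⟨h', h⟩ hc3
    · rcases div_succ hk z.1 with h | h
      · left
        show (z.1 / (k : ℤ), z.2 / (k : ℤ)) = ((z.1 + 1) / (k : ℤ), (z.2 + 0) / (k : ℤ))
        rw [h, add_zero]
      · rcases div_succ hk z.2 with h' | h'
        · right
          left
          show ((z.1 + 1) / (k : ℤ), (z.2 + 0) / (k : ℤ)) = ((z.1 + 1) / (k : ℤ), (z.2 + 1) / (k : ℤ))
          rw [h', add_zero]
        · exact absurd ⟨h, h'⟩ hc3

/-- The points of the fine lattice with coordinates divisible by the side of a block are points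
of the coarse lattice. -/
theorem pt_mul (o : E2) {n a : ℕ} (h : n ≤ a) (w : V) :
    pt o (1 / 2 ^ a) (((2 ^ (a - n) : ℕ) : ℤ) * w.1, ((2 ^ (a - n) : ℕ) : ℤ) * w.2) =
      pt o (1 / 2 ^ n) w := by
  have h1 : (2 : ℝ) ^ a = 2 ^ n * 2 ^ (a - n) := by
    rw [← pow_add]
    congr 1
    omega
  have key : ∀ t : ℤ, (1 / 2 ^ a : ℝ) * (((((2 ^ (a - n) : ℕ) : ℤ) * t : ℤ)) : ℝ) =
      (1 / 2 ^ n) * (t : ℝ) := by
    intro t
    push_cast
    rw [h1]
    field_simp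
  ext i
  fin_cases i
  · show o 0 + _ = o 0 + _
    simp only
    rw [key]
  · show o 1 + _ = o 1 + _
    simp only
    rw [key]

/-- The block of a cell is the coarse cell of its corner. -/
theorem fl_eq_cl (o : E2) {n a : ℕ} (h : n ≤ a) (z : V) :
    fl (2 ^ (a - n)) z = cl o (1 / 2 ^ n) (pt o (1 / 2 ^ a) z) := by
  have h1 : (2 : ℝ) ^ a = 2 ^ n * 2 ^ (a - n) := by
    rw [← pow_add]
    congr 1
    omega
  have key : ∀ (b : ℝ) (t : ℤ), ⌊(b + (1 / 2 ^ a : ℝ) * (t : ℝ) - b) / (1 / 2 ^ n)⌋ =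
      t / ((2 ^ (a - n) : ℕ) : ℤ) := by
    intro b t
    have h2 : (b + (1 / 2 ^ a : ℝ) * (t : ℝ) - b) / (1 / 2 ^ n) =
        (t : ℝ) / ((2 ^ (a - n) : ℕ) : ℝ) := by
      push_cast
      rw [h1]
      field_simp
      ring
    rw [h2, Int.floor_div_natCast, Int.floor_intCast]
  unfold fl cl
  rw [pt_zero, pt_one, key, key]

/-- One level with a set of cells as close to `X` as we like. -/
theorem exists_lv {X : Set E2} (hX : IsCompact X) (hXc : IsConnected X) (hT : TreeLike X) {o : E2}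
    (ho : ∀ (n : ℕ) (z : V), pt o (1 / 2 ^ n) z ∉ X) (n : ℕ) {η : ℝ} (hη : 0 < η) :
    ∃ (a : ℕ) (N : Set V), Lv X o n a N ∧ (1 : ℝ) / 2 ^ a < η ∧
      ∀ z ∈ N, ∃ x ∈ X, dist (pt o (1 / 2 ^ a) z) x < η := by
  obtain ⟨c, hc, hcd⟩ := grid_dist hX ho n
  obtain ⟨m, hm⟩ : ∃ m, m = min η c := ⟨_, rfl⟩
  have hm0 : 0 < m := by rw [hm]; exact lt_min hη hc
  have hm1 : m ≤ η := by rw [hm]; exact min_le_left _ _
  have hm2 : m ≤ c := by rw [hm]; exact min_le_right _ _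
  obtain ⟨r, hr, hrI⟩ := infinite_cmp hX hT (show (0 : ℝ) < m / 2 by positivity)
  have hs : 0 < min r m / 8 := by
    have := lt_min hr hm0
    positivity
  obtain ⟨a0, ha0⟩ := exists_pow_lt_of_lt_one hs (show (1 / 2 : ℝ) < 1 by norm_num)
  obtain ⟨a, ha⟩ : ∃ a, a = max n a0 := ⟨_, rfl⟩
  have hna : n ≤ a := by rw [ha]; exact le_max_left _ _
  have ha0a : a0 ≤ a := by rw [ha]; exact le_max_right _ _
  have hd : (0 : ℝ) < 1 / 2 ^ a := by positivity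
  have hda : (1 : ℝ) / 2 ^ a < min r m / 8 := by
    refine lt_of_le_of_lt ?_ ha0
    rw [← one_div_pow]
    exact pow_le_pow_of_le_one (by norm_num) (by norm_num) ha0a
  have hdr : 8 * ((1 : ℝ) / 2 ^ a) < r := by
    have := min_le_left r m
    linarith
  have hdm : 8 * ((1 : ℝ) / 2 ^ a) < m := by
    have := min_le_right r m
    linarith
  have hNf := nb_finite hX o hd
  obtain ⟨x0, hx0⟩ := hXc.nonempty
  have hnear : ∀ z ∈ fill (nb X o (1 / 2 ^ a)), ∃ x ∈ X, dist (pt o (1 / 2 ^ a) z) x < m := by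
    intro z hz
    by_contra hcon
    push Not at hcon
    refine (hrI o (1 / 2 ^ a) hd (by linarith) z (nb X o (1 / 2 ^ a)) fun w hw => ?_).2 hz
    obtain ⟨x, hx, hxd⟩ := nb_near hd hw
    refine ⟨⟨x, hx, by linarith⟩, ?_⟩
    have h1 := hcon x hx
    have h2 := dist_triangle (pt o (1 / 2 ^ a) z) (pt o (1 / 2 ^ a) w) x
    rw [dist_comm (pt o (1 / 2 ^ a) w) (pt o (1 / 2 ^ a) z)]
    linarith
  have hcor : ∀ z ∈ fill (nb X o (1 / 2 ^ a)),
      ¬ (((2 ^ (a - n) : ℕ) : ℤ) ∣ z.1 ∧ ((2 ^ (a - n) : ℕ) : ℤ) ∣ z.2) := by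
    rintro ⟨z1, z2⟩ hz ⟨⟨w1, hw1⟩, ⟨w2, hw2⟩⟩
    obtain ⟨x, hx, hxd⟩ := hnear _ hz
    simp only at hw1 hw2
    rw [hw1, hw2, pt_mul o hna (w1, w2)] at hxd
    have := hcd (w1, w2) x hx
    linarith
  refine ⟨a, fill (nb X o (1 / 2 ^ a)), ⟨hna, ?_, ?_, subset_fill _ , hcor⟩, by linarith, ?_⟩
  · exact td_of_cor (by positivity) (fill_finite hNf) (fill_compl hNf) hcor
  · exact fill_conn hNf (nb_conn hXc.isPreconnected o hd) ⟨_, mem_nb_self o _ hx0⟩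
  · intro z hz
    obtain ⟨x, hx, h⟩ := hnear z hz
    exact ⟨x, hx, by linarith⟩

/-- The nested grids of a planar tree-like continuum. -/
theorem exists_grids {X : Set E2} (hX : IsCompact X) (hXc : IsConnected X) (hT : TreeLike X) :
    ∃ (o : E2) (a : ℕ → ℕ) (N : ℕ → Set V), Grids X o a N := by
  obtain ⟨o, ho⟩ := exists_grid hX.isClosed (interior_empty hX hT)
  choose A B hL hA hB using fun (n : ℕ) (η : {η : ℝ // 0 < η}) =>
    exists_lv hX hXc hT ho n η.2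
  have hp : ∀ a : ℕ, (0 : ℝ) < 1 / 2 ^ a := fun a => by positivity
  obtain ⟨η, hη0, hη⟩ : ∃ η : ℕ → {η : ℝ // 0 < η}, η 0 = ⟨1, one_pos⟩ ∧
      ∀ n, η (n + 1) = ⟨1 / 2 ^ (A n (η n)), hp _⟩ :=
    ⟨fun n => Nat.rec ⟨1, one_pos⟩ (fun n e => ⟨1 / 2 ^ (A n e), hp _⟩) n, rfl, fun _ => rfl⟩
  have hlt : ∀ n, (1 : ℝ) / 2 ^ (A (n + 1) (η (n + 1))) < 1 / 2 ^ (A n (η n)) := by
    intro n
    have h1 := hA (n + 1) (η (n + 1))
    have h2 : ((η (n + 1) : {η : ℝ // 0 < η}) : ℝ) = 1 / 2 ^ (A n (η n)) := by rw [hη]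
    rwa [h2] at h1
  have hmono : ∀ n, A n (η n) ≤ A (n + 1) (η (n + 1)) := by
    intro n
    by_contra hcon
    have h1 : (1 : ℝ) / 2 ^ (A n (η n)) ≤ 1 / 2 ^ (A (n + 1) (η (n + 1))) :=
      one_div_le_one_div_of_le (by positivity) (pow_le_pow_right₀ (by norm_num) (by omega))
    linarith [hlt n]
  refine ⟨o, fun n => A n (η n), fun n => B n (η n), ⟨fun n => hL n (η n), hmono, ?_⟩⟩
  intro n z hz
  obtain ⟨x, hx, hxd⟩ := hB (n + 1) (η (n + 1)) z hz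
  have h2 : ((η (n + 1) : {η : ℝ // 0 < η}) : ℝ) = 1 / 2 ^ (A n (η n)) := by rw [hη]
  rw [h2] at hxd
  refine (hL n (η n)).mem ⟨x, hx, ?_⟩
  rw [fl_eq_cl o (hmono n) z]
  exact cl_step o (hp _) hxd

end Pool.Agent.Lib.MP_40f35d_gt.Pl
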