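import Pool.Agent.Lib.MP_40f35d_gt.Pl.P4

/-!
# The floor maps of the lattice and the maps between tiles

`fl k z = (z.1 / k, z.2 / k)`: the square of the coarse grid which contains the point `z`.
-/

set_option autoImplicit false

namespace Pool.Agent.Lib.MP_40f35d_gt.Pl

open Relation

/-- The square of side `k` which contains a point. -/
def fl (k : ℕ) (z : V) : V := (z.1 / (k : ℤ), z.2 / (k : ℤ))

theorem div_eq_iff' {k : ℕ} (hk : 0 < k) (z a : ℤ) :
    z / (k : ℤ) = a ↔ (k : ℤ) * a ≤ z ∧ z < (k : ℤ) * a + k := by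
  have hk' : (0 : ℤ) < k := by exact_mod_cast hk
  constructor
  · rintro rfl
    have h1 := Int.emod_add_mul_ediv z k
    have h2 := Int.emod_nonneg z hk'.ne'
    have h3 := Int.emod_lt_of_pos z hk'
    constructor <;> linarith
  · rintro ⟨h1, h2⟩
    refine le_antisymm ?_ ?_
    · have h3 : z / (k : ℤ) < a + 1 := by
        rw [Int.ediv_lt_iff_lt_mul hk']
        linarith [mul_comm (k : ℤ) a]
      omega
    · rw [Int.le_ediv_iff_mul_le hk']
      linarith [mul_comm (k : ℤ) a]

theorem fl_eq_iff {k : ℕ} (hk : 0 < k) (z a : V) :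
    fl k z = a ↔ ((k : ℤ) * a.1 ≤ z.1 ∧ z.1 < (k : ℤ) * a.1 + k) ∧
      ((k : ℤ) * a.2 ≤ z.2 ∧ z.2 < (k : ℤ) * a.2 + k) := by
  rw [← div_eq_iff' hk, ← div_eq_iff' hk]
  exact Prod.ext_iff

theorem div_step {k : ℕ} (hk : 0 < k) (z : ℤ) :
    (z + 1) / (k : ℤ) = z / (k : ℤ) ∨ (z + 1) / (k : ℤ) = z / (k : ℤ) + 1 := by
  obtain ⟨a, ha⟩ : ∃ a, a = z / (k : ℤ) := ⟨_, rfl⟩
  rw [← ha]
  obtain ⟨h1, h2⟩ := (div_eq_iff' hk z a).1 ha.symm
  rcases lt_or_ge (z + 1) ((k : ℤ) * a + k) with h3 | h3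
  · left
    rw [div_eq_iff' hk]
    exact ⟨by linarith, h3⟩
  · right
    rw [div_eq_iff' hk, mul_add, mul_one]
    have hk' : (0 : ℤ) < k := by exact_mod_cast hk
    exact ⟨h3, by linarith⟩

/-- Adjacent points are in equal or adjacent squares. -/
theorem fl_adj {k : ℕ} (hk : 0 < k) {z w : V} (h : Adj z w) :
    fl k z = fl k w ∨ Adj (fl k z) (fl k w) := by
  have h10 : ∀ z : V, fl k z = fl k (z + (1, 0)) ∨ Adj (fl k z) (fl k (z + (1, 0))) := by
    intro z
    unfold fl
    simp only [Prod.fst_add, Prod.snd_add, add_zero]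
    rcases div_step hk z.1 with h1 | h1
    · left
      rw [h1]
    · right
      left
      rw [h1]
      simp
  have h01 : ∀ z : V, fl k z = fl k (z + (0, 1)) ∨ Adj (fl k z) (fl k (z + (0, 1))) := by
    intro z
    unfold fl
    simp only [Prod.fst_add, Prod.snd_add, add_zero]
    rcases div_step hk z.2 with h1 | h1
    · left
      rw [h1]
    · right
      right
      left
      rw [h1]
      simp
  have h11 : ∀ z : V, fl k z = fl k (z + (1, 1)) ∨ Adj (fl k z) (fl k (z + (1, 1))) := by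
    intro z
    unfold fl
    simp only [Prod.fst_add, Prod.snd_add]
    rcases div_step hk z.1 with h1 | h1
    · rcases div_step hk z.2 with h2 | h2
      · left
        rw [h1, h2]
      · right
        right
        left
        rw [h1, h2]
        simp
    · rcases div_step hk z.2 with h2 | h2
      · right
        left
        rw [h1, h2]
        simp
      · right
        right
        right
        left
        rw [h1, h2]
        simp
  rcases h with h | h | h | h | h | h
  · rw [h]; exact h10 z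
  · rw [h]; exact h01 z
  · rw [h]; exact h11 z
  · rw [h]
    rcases h10 w with h1 | h1
    · exact Or.inl h1.symm
    · exact Or.inr h1.symm
  · rw [h]
    rcases h01 w with h1 | h1
    · exact Or.inl h1.symm
    · exact Or.inr h1.symm
  · rw [h]
    rcases h11 w with h1 | h1
    · exact Or.inl h1.symm
    · exact Or.inr h1.symm

theorem fl_one (z : V) : fl 1 z = z := by
  unfold fl
  simp

theorem fl_fl (a b : ℕ) (z : V) : fl a (fl b z) = fl (b * a) z := by
  unfold fl
  simp only [Nat.cast_mul]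
  rw [Int.ediv_ediv_of_nonneg (Int.natCast_nonneg b),
    Int.ediv_ediv_of_nonneg (Int.natCast_nonneg b)]

/-- Walks along a horizontal segment. -/
theorem hor_walk {S : Set V} {y : ℤ} (x : ℤ) (n : ℕ)
    (h : ∀ t : ℤ, x ≤ t → t ≤ x + n → (t, y) ∈ S) : ReflTransGen (Stp S) (x, y) (x + n, y) := by
  induction n with
  | zero => simp only [Nat.cast_zero, add_zero]; exact ReflTransGen.refl
  | succ n ih =>
    refine (ih fun t h1 h2 => h t h1 (by push_cast; linarith)).tail ⟨h _ ?_ ?_, h _ ?_ ?_, ?_⟩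
    · linarith [Int.natCast_nonneg n]
    · push_cast; linarith
    · push_cast; linarith [Int.natCast_nonneg n]
    · exact le_refl _
    · left
      push_cast
      simp [add_assoc]

/-- Walks along a vertical segment. -/
theorem ver_walk {S : Set V} {x : ℤ} (y : ℤ) (n : ℕ)
    (h : ∀ t : ℤ, y ≤ t → t ≤ y + n → (x, t) ∈ S) : ReflTransGen (Stp S) (x, y) (x, y + n) := by
  induction n with
  | zero => simp only [Nat.cast_zero, add_zero]; exact ReflTransGen.refl
  | succ n ih =>
    refine (ih fun t h1 h2 => h t h1 (by push_cast; linarith)).tail ⟨h _ ?_ ?_, h _ ?_ ?_, ?_⟩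
    · linarith [Int.natCast_nonneg n]
    · push_cast; linarith
    · push_cast; linarith [Int.natCast_nonneg n]
    · exact le_refl _
    · right
      left
      push_cast
      simp [add_assoc]

private theorem fl_rsymm {S : Set V} {z w : V} (h : ReflTransGen (Stp S) z w) :
    ReflTransGen (Stp S) w z := by
  induction h with
  | refl => exact ReflTransGen.refl
  | @tail b c _ h2 ih => exact ReflTransGen.head (Stp.symm h2) ih

/-- Two points of a rectangle contained in `S` are connected in `S`. -/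
theorem rect_walk {S : Set V} {a b c d : ℤ}
    (h : ∀ s t : ℤ, a ≤ s → s ≤ b → c ≤ t → t ≤ d → (s, t) ∈ S) {x y x' y' : ℤ}
    (hx : a ≤ x) (hx2 : x ≤ b) (hy : c ≤ y) (hy2 : y ≤ d)
    (hx' : a ≤ x') (hx2' : x' ≤ b) (hy' : c ≤ y') (hy2' : y' ≤ d) :
    ReflTransGen (Stp S) (x, y) (x', y') := by
  have h1 : ReflTransGen (Stp S) (x, y) (x', y) := by
    rcases le_total x x' with h2 | h2
    · obtain ⟨n, hn⟩ := Int.eq_ofNat_of_zero_le (sub_nonneg.2 h2)
      have e : x' = x + n := by linarith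
      subst e
      exact hor_walk x n fun t h3 h4 => h t y (by linarith) (by linarith) hy hy2
    · obtain ⟨n, hn⟩ := Int.eq_ofNat_of_zero_le (sub_nonneg.2 h2)
      have e : x = x' + n := by linarith
      subst e
      exact fl_rsymm (hor_walk x' n fun t h3 h4 => h t y (by linarith) (by linarith) hy hy2)
  have h2 : ReflTransGen (Stp S) (x', y) (x', y') := by
    rcases le_total y y' with h2 | h2
    · obtain ⟨n, hn⟩ := Int.eq_ofNat_of_zero_le (sub_nonneg.2 h2)
      have e : y' = y + n := by linarith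
      subst e
      exact ver_walk y n fun t h3 h4 => h x' t hx' hx2' (by linarith) (by linarith)
    · obtain ⟨n, hn⟩ := Int.eq_ofNat_of_zero_le (sub_nonneg.2 h2)
      have e : y = y' + n := by linarith
      subst e
      exact fl_rsymm (ver_walk y' n fun t h3 h4 => h x' t hx' hx2' (by linarith) (by linarith))
  exact h1.trans h2

/-- The squares of the coarse grid are connected. -/
theorem fl_blk {k : ℕ} (hk : 0 < k) {S : Set V} {z w : V} (h : fl k z = fl k w)
    (hS : ∀ u, fl k u = fl k z → u ∈ S) : ReflTransGen (Stp S) z w := by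
  obtain ⟨x, y⟩ := z
  obtain ⟨x', y'⟩ := w
  obtain ⟨a, ha⟩ : ∃ a, a = fl k (x, y) := ⟨_, rfl⟩
  obtain ⟨⟨h1, h2⟩, h3, h4⟩ := (fl_eq_iff hk (x, y) a).1 ha.symm
  obtain ⟨⟨h5, h6⟩, h7, h8⟩ := (fl_eq_iff hk (x', y') a).1 (by rw [← h, ← ha])
  simp only at h1 h2 h3 h4 h5 h6 h7 h8
  refine rect_walk (a := (k : ℤ) * a.1) (b := (k : ℤ) * a.1 + k - 1) (c := (k : ℤ) * a.2)
    (d := (k : ℤ) * a.2 + k - 1) ?_ h1 (by omega) h3 (by omega) h5 (by omega) h7 (by omega)
  intro s t hs hs2 ht ht2
  refine hS _ ?_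
  rw [← ha, fl_eq_iff hk]
  exact ⟨⟨hs, by simp only; omega⟩, ht, by simp only; omega⟩

/-- Adjacent squares contain adjacent points. -/
theorem exists_adj_fl {k : ℕ} (hk : 0 < k) {a b : V} (h : Adj a b) :
    ∃ u v, fl k u = a ∧ fl k v = b ∧ Adj u v := by
  have hk' : (0 : ℤ) < k := by exact_mod_cast hk
  have hp : ∀ (a d : V), (d = (1, 0) ∨ d = (0, 1) ∨ d = (1, 1)) →
      ∃ u, fl k u = a ∧ fl k (u + d) = a + d := by
    intro a d hd
    rcases hd with rfl | rfl | rfl
    · refine ⟨((k : ℤ) * a.1 + k - 1, (k : ℤ) * a.2), ?_, ?_⟩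
      · rw [fl_eq_iff hk]
        simp only
        refine ⟨⟨by omega, by omega⟩, by omega, by omega⟩
      · rw [fl_eq_iff hk]
        simp only [Prod.mk_add_mk, Prod.fst_add, Prod.snd_add, mul_add, mul_one, add_zero]
        refine ⟨⟨by omega, by omega⟩, by omega, by omega⟩
    · refine ⟨((k : ℤ) * a.1, (k : ℤ) * a.2 + k - 1), ?_, ?_⟩
      · rw [fl_eq_iff hk]
        simp only
        refine ⟨⟨by omega, by omega⟩, by omega, by omega⟩
      · rw [fl_eq_iff hk]
        simp only [Prod.mk_add_mk, Prod.fst_add, Prod.snd_add, mul_add, mul_one, add_zero]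
        refine ⟨⟨by omega, by omega⟩, by omega, by omega⟩
    · refine ⟨((k : ℤ) * a.1 + k - 1, (k : ℤ) * a.2 + k - 1), ?_, ?_⟩
      · rw [fl_eq_iff hk]
        simp only
        refine ⟨⟨by omega, by omega⟩, by omega, by omega⟩
      · rw [fl_eq_iff hk]
        simp only [Prod.mk_add_mk, Prod.fst_add, Prod.snd_add, mul_add, mul_one]
        refine ⟨⟨by omega, by omega⟩, by omega, by omega⟩
  rcases h with h | h | h | h | h | h
  · obtain ⟨u, h1, h2⟩ := hp a (1, 0) (Or.inl rfl)
    exact ⟨u, u + (1, 0), h1, by rw [h2, h], Or.inl rfl⟩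
  · obtain ⟨u, h1, h2⟩ := hp a (0, 1) (Or.inr (Or.inl rfl))
    exact ⟨u, u + (0, 1), h1, by rw [h2, h], Or.inr (Or.inl rfl)⟩
  · obtain ⟨u, h1, h2⟩ := hp a (1, 1) (Or.inr (Or.inr rfl))
    exact ⟨u, u + (1, 1), h1, by rw [h2, h], Or.inr (Or.inr (Or.inl rfl))⟩
  · obtain ⟨u, h1, h2⟩ := hp b (1, 0) (Or.inl rfl)
    exact ⟨u + (1, 0), u, by rw [h2, h], h1, Adj.symm (Or.inl rfl)⟩
  · obtain ⟨u, h1, h2⟩ := hp b (0, 1) (Or.inr (Or.inl rfl))
    exact ⟨u + (0, 1), u, by rw [h2, h], h1, Adj.symm (Or.inr (Or.inl rfl))⟩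
  · obtain ⟨u, h1, h2⟩ := hp b (1, 1) (Or.inr (Or.inr rfl))
    exact ⟨u + (1, 1), u, by rw [h2, h], h1, Adj.symm (Or.inr (Or.inr (Or.inl rfl)))⟩

/-- The blow-up of a connected set is connected. -/
theorem fl_conn {k : ℕ} (hk : 0 < k) {A : Set V} (hA : Conn A) : Conn (fl k ⁻¹' A) := by
  have key : ∀ a b : V, ReflTransGen (Stp A) a b → a ∈ A → ∀ z w : V, fl k z = a → fl k w = b →
      ReflTransGen (Stp (fl k ⁻¹' A)) z w := by
    intro a b hab ha
    induction hab with
    | refl =>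
      intro z w hz hw
      exact fl_blk hk (hz.trans hw.symm) fun u hu => by
        rw [Set.mem_preimage, hu, hz]
        exact ha
    | @tail b c h1 h2 ih =>
      intro z w hz hw
      obtain ⟨u, v, hu, hv, huv⟩ := exists_adj_fl hk h2.2.2
      have h3 := ih z u hz hu
      have h4 : Stp (fl k ⁻¹' A) u v :=
        ⟨by rw [Set.mem_preimage, hu]; exact h2.1, by rw [Set.mem_preimage, hv]; exact h2.2.1, huv⟩
      refine (h3.tail h4).trans (fl_blk hk (hv.trans hw.symm) fun t ht => ?_)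
      rw [Set.mem_preimage, ht, hv]
      exact h2.2.1
  intro z hz w hw
  exact key _ _ (hA _ hz _ hw) hz z w rfl rfl

theorem fl_compl_conn {k : ℕ} (hk : 0 < k) {A : Set V} (hA : Conn Aᶜ) : Conn (fl k ⁻¹' A)ᶜ := by
  rw [← Set.preimage_compl]
  exact fl_conn hk hA

/-- The blow-up of a finite set is finite. -/
theorem fl_finite {k : ℕ} (hk : 0 < k) {A : Set V} (hA : A.Finite) : (fl k ⁻¹' A).Finite := by
  refine Set.Finite.preimage' hA fun a _ => ?_
  refine Set.Finite.subset
    ((Finset.Icc ((k : ℤ) * a.1) ((k : ℤ) * a.1 + k) ×ˢ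
      Finset.Icc ((k : ℤ) * a.2) ((k : ℤ) * a.2 + k)).finite_toSet) ?_
  intro z hz
  have h1 : fl k z = a := hz
  obtain ⟨⟨h2, h3⟩, h4, h5⟩ := (fl_eq_iff hk z a).1 h1
  rw [Finset.mem_coe, Finset.mem_product, Finset.mem_Icc, Finset.mem_Icc]
  exact ⟨⟨h2, h3.le⟩, h4, h5.le⟩

/-- The blow-up of a union of tiles is acyclic. -/
theorem fl_cells_acyclic {I : Type} {N : Set V} {lab : V → I} (h : Td N lab) {k : ℕ} (hk : 0 < k)
    (C : Set (Tile N lab)) : Acyclic (fl k ⁻¹' cells C) :=
  acyclic_of_compl (fl_finite hk (h.fin.subset (cells_sub C))) (fl_compl_conn hk (cells_compl h C))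

/-! ## Maps between tiles -/

section map

variable {I I' : Type} {N N' : Set V} {lab : V → I} {lab' : V → I'}

/-- The point map `f` sends `N'` into `N`, adjacent points to equal or adjacent points, and it
respects the labels. -/
structure Tm (N' : Set V) (lab' : V → I') (N : Set V) (lab : V → I) (f : V → V) : Prop where
  mem : ∀ z ∈ N', f z ∈ N
  adj : ∀ z w, Adj z w → f z = f w ∨ Adj (f z) (f w)
  lab : ∀ z w, lab' z = lab' w → lab (f z) = lab (f w)

theorem Tm.til_eq {f : V → V} (h : Tm N' lab' N lab f) {a b : N'} (hab : til lab' a = til lab' b) :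
    til lab (⟨f a.1, h.mem a.1 a.2⟩ : N) = til lab ⟨f b.1, h.mem b.1 b.2⟩ := by
  have h1 := til_eq_iff.1 hab
  clear hab
  induction h1 with
  | refl => rfl
  | @tail b c _ h2 ih =>
    refine ih.trans ?_
    rcases h.adj b.1 c.1 h2.1 with h3 | h3
    · congr 1
      exact Subtype.ext h3
    · exact til_eq_of_adj h3 (h.lab _ _ h2.2)

/-- The map of the tiles. -/
def Tm.map {f : V → V} (h : Tm N' lab' N lab f) : Tile N' lab' → Tile N lab :=
  Quotient.lift (fun a : N' => til lab (⟨f a.1, h.mem a.1 a.2⟩ : N))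
    fun _ _ hab => h.til_eq (til_eq_iff.2 hab)

theorem Tm.map_til {f : V → V} (h : Tm N' lab' N lab f) (a : N') :
    h.map (til lab' a) = til lab ⟨f a.1, h.mem a.1 a.2⟩ := rfl

theorem Tm.map_adj {f : V → V} (h : Tm N' lab' N lab f) {s t : Tile N' lab'}
    (hst : (Tg N' lab').Adj s t) : h.map s = h.map t ∨ (Tg N lab).Adj (h.map s) (h.map t) := by
  obtain ⟨_, z, w, rfl, rfl, hzw⟩ := tg_adj.1 hst
  rw [h.map_til, h.map_til]
  rcases h.adj z.1 w.1 hzw with h3 | h3
  · left
    congr 1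
    exact Subtype.ext h3
  · exact til_eq_or_adj (a := ⟨f z.1, h.mem z.1 z.2⟩) (b := ⟨f w.1, h.mem w.1 w.2⟩) h3

/-- Composition: `f'' = f ∘ f'` on `N''`. -/
theorem Tm.map_map {I'' : Type} {N'' : Set V} {lab'' : V → I''} {f f' f'' : V → V}
    (h : Tm N' lab' N lab f) (h' : Tm N'' lab'' N' lab' f') (h'' : Tm N'' lab'' N lab f'')
    (hf : ∀ z ∈ N'', f (f' z) = f'' z) (s : Tile N'' lab'') : h.map (h'.map s) = h''.map s := by
  obtain ⟨a, rfl⟩ := til_surj s
  rw [h'.map_til, h.map_til, h''.map_til]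
  congr 1
  exact Subtype.ext (hf a.1 a.2)

theorem Tm.map_id {f : V → V} (h : Tm N lab N lab f) (hf : ∀ z ∈ N, f z = z) (s : Tile N lab) :
    h.map s = s := by
  obtain ⟨a, rfl⟩ := til_surj s
  rw [h.map_til]
  congr 1
  exact Subtype.ext (hf a.1 a.2)

/-- The points of a tile are mapped into the points of its image. -/
theorem Tm.cells_map {f : V → V} (h : Tm N' lab' N lab f) (C : Set (Tile N lab)) {z : V}
    (hz : z ∈ cells (h.map ⁻¹' C)) : f z ∈ cells C :=
  ⟨h.mem z hz.1, hz.2⟩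

end map

/-- The floor map `fl k` from the level with the labels `fl (k * c)`... : if `lab' = fl b`,
`lab = fl a` and `k * a = b * c`, the labels are respected. -/
theorem tm_fl {N N' : Set V} {k a b c : ℕ} (hk : 0 < k) (hN : ∀ z ∈ N', fl k z ∈ N)
    (he : k * a = b * c) : Tm N' (fl b) N (fl a) (fl k) where
  mem := hN
  adj := fun _ _ h => fl_adj hk h
  lab := fun z w h => by
    rw [fl_fl, fl_fl, he, ← fl_fl, ← fl_fl, h]

end Pool.Agent.Lib.MP_40f35d_gt.Pl
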