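import Pool.Agent.Lib.MP_40f35d_gt.Pl.P0

/-!
# The points of the plane which belong to the lattice
-/

set_option autoImplicit false

namespace Pool.Agent.Lib.MP_40f35d_gt.Pl

/-- The plane. -/
abbrev E2 := EuclideanSpace ℝ (Fin 2)

/-- The lattice point `z` of mesh `d` and origin `o`. -/
noncomputable def pt (o : E2) (d : ℝ) (z : V) : E2 :=
  WithLp.toLp 2 ![o 0 + d * (z.1 : ℝ), o 1 + d * (z.2 : ℝ)]

theorem pt_zero (o : E2) (d : ℝ) (z : V) : pt o d z 0 = o 0 + d * (z.1 : ℝ) := rfl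

theorem pt_one (o : E2) (d : ℝ) (z : V) : pt o d z 1 = o 1 + d * (z.2 : ℝ) := rfl

theorem abs0_le (p q : E2) : |p 0 - q 0| ≤ dist p q := by
  rw [EuclideanSpace.dist_eq, Fin.sum_univ_two, Real.dist_eq, Real.dist_eq]
  refine Real.le_sqrt_of_sq_le ?_
  have := sq_nonneg |p 1 - q 1|
  linarith

theorem abs1_le (p q : E2) : |p 1 - q 1| ≤ dist p q := by
  rw [EuclideanSpace.dist_eq, Fin.sum_univ_two, Real.dist_eq, Real.dist_eq]
  refine Real.le_sqrt_of_sq_le ?_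
  have := sq_nonneg |p 0 - q 0|
  linarith

theorem dist_le_add (p q : E2) : dist p q ≤ |p 0 - q 0| + |p 1 - q 1| := by
  rw [EuclideanSpace.dist_eq, Fin.sum_univ_two, Real.dist_eq, Real.dist_eq]
  refine Real.sqrt_le_iff.2 ⟨by positivity, ?_⟩
  have := mul_nonneg (abs_nonneg (p 0 - q 0)) (abs_nonneg (p 1 - q 1))
  nlinarith

/-- Adjacent lattice points. -/
theorem dist_pt_adj (o : E2) {d : ℝ} (hd : 0 ≤ d) {z w : V} (h : Adj z w) :
    dist (pt o d z) (pt o d w) ≤ 2 * d := by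
  have key : ∀ x y : ℤ, |x - y| ≤ 1 → |d * (x : ℝ) - d * (y : ℝ)| ≤ d := by
    intro x y hxy
    have h1 : |((x - y : ℤ) : ℝ)| ≤ 1 := by
      rw [← Int.cast_abs]
      exact_mod_cast hxy
    rw [← mul_sub, abs_mul, abs_of_nonneg hd]
    push_cast at h1
    nlinarith
  have hz : |z.1 - w.1| ≤ 1 ∧ |z.2 - w.2| ≤ 1 := by
    obtain ⟨a, b⟩ := z
    obtain ⟨a', b'⟩ := w
    simp only [Adj, Prod.mk_add_mk, Prod.mk.injEq] at h
    simp only [abs_le]
    omega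
  have h0 := key _ _ hz.1
  have h1 := key _ _ hz.2
  have h2 := dist_le_add (pt o d z) (pt o d w)
  rw [pt_zero, pt_zero, pt_one, pt_one] at h2
  have e0 : o 0 + d * (z.1 : ℝ) - (o 0 + d * (w.1 : ℝ)) = d * (z.1 : ℝ) - d * (w.1 : ℝ) := by
    ring
  have e1 : o 1 + d * (z.2 : ℝ) - (o 1 + d * (w.2 : ℝ)) = d * (z.2 : ℝ) - d * (w.2 : ℝ) := by
    ring
  rw [e0, e1] at h2
  linarith

end Pool.Agent.Lib.MP_40f35d_gt.Pl
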