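import Pool.Agent.Lib.MP_40f35d_gt.Pl.P3
import Pool.Agent.Lib.MP_40f35d_gt.Pl.Fl
import Pool.Agent.Lib.MP_40f35d_gt.Pl.Pt

/-!
# The nested grids: definitions
Cells of the lattice with origin `o` and mesh `d`, the neighbourhood of a set of the plane in the
lattice, filling, and the properties of one level and of a sequence of levels.
-/

set_option autoImplicit false

namespace Pool.Agent.Lib.MP_40f35d_gt.Pl

/-- The cell (lattice point) of a point of the plane. -/
noncomputable def cl (o : E2) (d : ℝ) (x : E2) : V :=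
  (⌊(x 0 - o 0) / d⌋, ⌊(x 1 - o 1) / d⌋)

/-- The cells at distance at most one from a cell of `X`. -/
def nb (X : Set E2) (o : E2) (d : ℝ) : Set V :=
  {z | ∃ x ∈ X, |z.1 - (cl o d x).1| ≤ 1 ∧ |z.2 - (cl o d x).2| ≤ 1}

/-- A set together with the finite components of its complement. -/
def fill (N : Set V) : Set V := {z | (Cmp N z).Finite}

/-- One level: the lattice of mesh `1 / 2 ^ a`, the blocks of side `2 ^ (a - n)`, that is of size
`1 / 2 ^ n`, and a set `N` of cells. -/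
structure Lv (X : Set E2) (o : E2) (n a : ℕ) (N : Set V) : Prop where
  le : n ≤ a
  td : Td N (fl (2 ^ (a - n)))
  conn : Conn N
  mem : nb X o (1 / 2 ^ a) ⊆ N
  cor : ∀ z ∈ N, ¬ (((2 ^ (a - n) : ℕ) : ℤ) ∣ z.1 ∧ ((2 ^ (a - n) : ℕ) : ℤ) ∣ z.2)

/-- A sequence of nested levels. -/
structure Grids (X : Set E2) (o : E2) (a : ℕ → ℕ) (N : ℕ → Set V) : Prop where
  lv : ∀ n, Lv X o n (a n) (N n)
  mono : ∀ n, a n ≤ a (n + 1)
  sub : ∀ n, ∀ z ∈ N (n + 1), fl (2 ^ (a (n + 1) - a n)) z ∈ N n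

end Pool.Agent.Lib.MP_40f35d_gt.Pl
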