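import Pool.Agent.Lib.MP_40f35d_gt.Pl.P2

/-!
# The angle between two disjoint acyclic sets

`bt z w` counts the half turns of a lattice vector which moves from `z` to the adjacent vector `w`
(`kap` and its mirror image).  It is closed off `0`, invariant under negation, and its parity is
the difference of `rho`.  On the product of two disjoint acyclic sets there is a lift.
-/

namespace Pool.Agent.Lib.MP_40f35d_gt.Pl

/-- Half turns. -/
def bt (z w : V) : ℤ := kap true 0 z w + kap true 0 (-z) (-w)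

/-- The lower half plane, with the positive half of the axis. -/
def rho (z : V) : ℤ := if z.2 ≤ -1 ∨ (z.2 = 0 ∧ 0 < z.1) then 1 else 0

theorem bt_anti (z w : V) : bt z w = - bt w z := by
  unfold bt
  rw [kap_anti true 0 z w, kap_anti true 0 (-z) (-w)]
  ring

theorem bt_neg (z w : V) : bt (-z) (-w) = bt z w := by
  unfold bt
  rw [neg_neg, neg_neg]
  ring

theorem bt_sub_comm (x p q : V) : bt (x - p) (x - q) = bt (p - x) (q - x) := by
  rw [← bt_neg (p - x) (q - x), neg_sub, neg_sub]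

theorem bt_sub_comm' (x y p q : V) : bt (x - p) (y - q) = bt (p - x) (q - y) := by
  rw [← bt_neg (p - x) (q - y), neg_sub, neg_sub]

theorem curl_bt {b : Bool} {z : V} (h1 : z ≠ 0) (h3 : z + (1, 1) ≠ 0) :
    curl bt b z = 0 := by
  have e1 : curl (kap true 0) b z = 0 := by
    rw [curl_kap, if_neg (fun h => h1 h.2)]
  have e2 : curl (kap true 0) (!b) (-z - (1, 1)) = 0 := by
    rw [curl_kap, if_neg]
    rintro ⟨-, h⟩
    apply h3
    rw [← neg_eq_zero, neg_add, ← sub_eq_add_neg, h]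
  have h4 : -z - (1, 1) + (1, 1) = -z := sub_add_cancel _ _
  have h5 : -z - (1, 1) + mid (!b) = -(z + mid b) := by
    obtain ⟨a, c⟩ := z
    cases b <;> simp [mid, Prod.ext_iff]
    · ring
    · ring
  have h6 : -z - (1, 1) = -(z + (1, 1)) := by
    rw [neg_add]
    rfl
  unfold curl at e1 e2 ⊢
  rw [h4, h5, h6] at e2
  unfold bt
  rw [kap_anti true 0 (-(z + (1, 1))) (-(z + mid b)), kap_anti true 0 (-(z + mid b)) (-z),
    kap_anti true 0 (-(z + (1, 1))) (-z)] at e2
  linarith

/-- The six directions. -/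
def Dir (d : V) : Prop :=
  d = (1, 0) ∨ d = (0, 1) ∨ d = (1, 1) ∨ d = (-1, 0) ∨ d = (0, -1) ∨ d = (-1, -1)

instance (d : V) : Decidable (Dir d) := by unfold Dir; infer_instance

theorem adj_iff {z w : V} : Adj z w ↔ Dir (w - z) := by
  obtain ⟨a, b⟩ := z
  obtain ⟨c, d⟩ := w
  simp only [Adj, Dir, Prod.mk_add_mk, Prod.mk_sub_mk, Prod.mk.injEq]
  omega

theorem dir_neg {d : V} (h : Dir d) : Dir (-d) := by
  rcases h with rfl | rfl | rfl | rfl | rfl | rfl <;> decide

theorem dir_cases {u w : V} (hu : Dir u) (hw : Dir w) :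
    u = w ∨ u = -w ∨ Dir (u + w) ∨ Dir (u - w) := by
  rcases hu with rfl | rfl | rfl | rfl | rfl | rfl <;>
    rcases hw with rfl | rfl | rfl | rfl | rfl | rfl <;> decide

/-- The height. -/
def ht (z : V) : ℤ := z.1 + z.2

theorem ht_ne {z w : V} (h : Adj z w) : ht z ≠ ht w := by
  obtain ⟨a, b⟩ := z
  obtain ⟨c, d⟩ := w
  simp only [Adj, Prod.mk_add_mk, Prod.mk.injEq] at h
  simp only [ht]
  omega

theorem tri_sorted {z w u : V} (h1 : Adj z w) (h2 : Adj w u) (h3 : Adj z u) (h4 : ht z < ht w)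
    (h5 : ht w < ht u) : ∃ b, w = z + mid b ∧ u = z + (1, 1) := by
  obtain ⟨a, b⟩ := z
  obtain ⟨c, d⟩ := w
  obtain ⟨e, f⟩ := u
  simp only [Adj, Prod.mk_add_mk, Prod.mk.injEq] at h1 h2 h3
  simp only [ht] at h4 h5
  by_cases hc : c = a + 1
  · refine ⟨true, ?_, ?_⟩
    · simp only [mid, Prod.mk_add_mk, Prod.mk.injEq]
      omega
    · simp only [Prod.mk_add_mk, Prod.mk.injEq]
      omega
  · refine ⟨false, ?_, ?_⟩
    · simp only [mid, Prod.mk_add_mk, Prod.mk.injEq]
      omega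
    · simp only [Prod.mk_add_mk, Prod.mk.injEq]
      omega

theorem bt_sorted {z w u : V} (h1 : Adj z w) (h2 : Adj w u) (h3 : Adj z u) (h4 : ht z < ht w)
    (h5 : ht w < ht u) (hz : z ≠ 0) (hu : u ≠ 0) : bt z w + bt w u = bt z u := by
  obtain ⟨b, hb, hb'⟩ := tri_sorted h1 h2 h3 h4 h5
  have := curl_bt (b := b) hz (by rwa [← hb'])
  unfold curl at this
  rw [← hb, ← hb'] at this
  linarith

/-- The sum around a triangle which does not contain `0` vanishes. -/
theorem bt_tri {z w u : V} (h1 : Adj z w) (h2 : Adj w u) (h3 : Adj z u) (hz : z ≠ 0) (hw : w ≠ 0)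
    (hu : u ≠ 0) : bt z w + bt w u = bt z u := by
  have n1 := ht_ne h1
  have n2 := ht_ne h2
  have n3 := ht_ne h3
  rcases lt_or_gt_of_ne n1 with l1 | l1 <;> rcases lt_or_gt_of_ne n2 with l2 | l2 <;>
    rcases lt_or_gt_of_ne n3 with l3 | l3
  · exact bt_sorted h1 h2 h3 l1 l2 hz hu
  · omega
  · have := bt_sorted h3 h2.symm h1 l3 l2 hz hw
    rw [bt_anti u w] at this
    linarith
  · have := bt_sorted h3.symm h1 h2.symm l3 l1 hu hw
    rw [bt_anti u z, bt_anti u w] at this
    linarith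
  · have := bt_sorted h1.symm h3 h2 l1 l3 hw hu
    rw [bt_anti w z] at this
    linarith
  · have := bt_sorted h2 h3.symm h1.symm l2 l3 hw hz
    rw [bt_anti u z, bt_anti w z] at this
    linarith
  · omega
  · have := bt_sorted h2.symm h1.symm h3.symm l2 l1 hu hz
    rw [bt_anti u w, bt_anti w z, bt_anti u z] at this
    linarith

/-- The square relation. -/
theorem bt_square {d u w : V} (hu : Dir u) (hw : Dir w) (h1 : d ≠ 0) (h2 : d + u ≠ 0)
    (h3 : d + w ≠ 0) (h4 : d + u + w ≠ 0) :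
    bt d (d + u) + bt (d + u) (d + u + w) = bt d (d + w) + bt (d + w) (d + u + w) := by
  have a1 : Adj d (d + u) := by rw [adj_iff]; simpa using hu
  have a2 : Adj d (d + w) := by rw [adj_iff]; simpa using hw
  have a3 : Adj (d + u) (d + u + w) := by rw [adj_iff]; simpa using hw
  have a4 : Adj (d + w) (d + u + w) := by
    rw [adj_iff, show d + u + w - (d + w) = u by abel]
    exact hu
  rcases dir_cases hu hw with h | h | h | h
  · subst h; rfl
  · subst h
    rw [show d + -w + w = d by abel]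
    rw [bt_anti (d + -w) d, bt_anti (d + w) d]
    ring
  · have a5 : Adj d (d + u + w) := by
      rw [adj_iff, show d + u + w - d = u + w by abel]
      exact h
    rw [bt_tri a1 a3 a5 h1 h2 h4, bt_tri a2 a4 a5 h1 h3 h4]
  · have a5 : Adj (d + w) (d + u) := by
      rw [adj_iff, show d + u - (d + w) = u - w by abel]
      exact h
    have e1 := bt_tri a2 a5 a1 h1 h3 h2
    have e2 := bt_tri a5 a3 a4 h3 h2 h4
    linarith

/-- The square relation for a pair of steps. -/
theorem bt_sq {x x' p p' : V} (hx : Adj x x') (hp : Adj p p') (h1 : x ≠ p) (h2 : x' ≠ p)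
    (h3 : x ≠ p') (h4 : x' ≠ p') :
    bt (x - p) (x' - p) + bt (x' - p) (x' - p') = bt (x - p) (x - p') + bt (x - p') (x' - p') := by
  have hu : Dir (x' - x) := adj_iff.1 hx
  have hw : Dir (p - p') := by
    have := dir_neg (adj_iff.1 hp)
    rwa [neg_sub] at this
  have e1 : x - p + (x' - x) = x' - p := by abel
  have e2 : x' - p + (p - p') = x' - p' := by abel
  have e3 : x - p + (p - p') = x - p' := by abel
  have := bt_square (d := x - p) hu hw (sub_ne_zero.2 h1) (by rw [e1]; exact sub_ne_zero.2 h2)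
    (by rw [e3]; exact sub_ne_zero.2 h3) (by rw [e1, e2]; exact sub_ne_zero.2 h4)
  rwa [e1, e2, e3] at this

theorem rho_odd {z : V} (hz : z ≠ 0) : rho z + rho (-z) = 1 := by
  obtain ⟨a, b⟩ := z
  have : ¬ (a = 0 ∧ b = 0) := fun h => hz (by rw [h.1, h.2]; rfl)
  simp only [rho, Prod.neg_mk]
  split_ifs <;> omega

/-- The parity of the half turns. -/
theorem bt_par {z w : V} (h : Adj z w) (hz : z ≠ 0) (hw : w ≠ 0) :
    (2 : ℤ) ∣ bt z w - (rho w - rho z) := by
  have key : ∀ z w : V, (w = z + (1, 0) ∨ w = z + (0, 1) ∨ w = z + (1, 1)) → z ≠ 0 → w ≠ 0 →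
      (2 : ℤ) ∣ bt z w - (rho w - rho z) := by
    intro z w h hz hw
    obtain ⟨a, b⟩ := z
    have hz' : ¬ (a = 0 ∧ b = 0) := fun h => hz (by rw [h.1, h.2]; rfl)
    rcases h with rfl | rfl | rfl
    · have hw' : ¬ (a + 1 = 0 ∧ b = 0) := fun h => hw (by
        simp only [Prod.mk_add_mk, h.1, h.2, add_zero]; rfl)
      simp [bt, kap, rho, Prod.ext_iff]
      split_ifs <;> omega
    · have hw' : ¬ (a = 0 ∧ b + 1 = 0) := fun h => hw (by
        simp only [Prod.mk_add_mk, h.1, h.2, add_zero]; rfl)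
      simp [bt, kap, rho, Prod.ext_iff]
      split_ifs <;> omega
    · have hw' : ¬ (a + 1 = 0 ∧ b + 1 = 0) := fun h => hw (by
        simp only [Prod.mk_add_mk, h.1, h.2]; rfl)
      simp [bt, kap, rho, Prod.ext_iff]
      split_ifs <;> omega
  rcases h with h | h | h | h | h | h
  · exact key z w (Or.inl h) hz hw
  · exact key z w (Or.inr (Or.inl h)) hz hw
  · exact key z w (Or.inr (Or.inr h)) hz hw
  · obtain ⟨c, hc⟩ := key w z (Or.inl h) hw hz
    exact ⟨-c, by rw [bt_anti]; linarith⟩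
  · obtain ⟨c, hc⟩ := key w z (Or.inr (Or.inl h)) hw hz
    exact ⟨-c, by rw [bt_anti]; linarith⟩
  · obtain ⟨c, hc⟩ := key w z (Or.inr (Or.inr h)) hw hz
    exact ⟨-c, by rw [bt_anti]; linarith⟩

/-- `f` is a potential of the half turns seen from `c`. -/
def Pot (P : Set V) (c : V) (f : V → ℤ) : Prop :=
  ∀ x ∈ P, ∀ x' ∈ P, Adj x x' → f x' - f x = bt (x - c) (x' - c)

theorem Pot.mono {P Q : Set V} {c : V} {f : V → ℤ} (h : Pot P c f) (hQ : Q ⊆ P) : Pot Q c f :=
  fun x hx x' hx' ha => h x (hQ hx) x' (hQ hx') ha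

/-- Two potentials on a connected set have the same differences. -/
theorem Pot.unique {P : Set V} {c : V} {f f' : V → ℤ} (hP : Conn P) (h : Pot P c f)
    (h' : Pot P c f') {x y : V} (hx : x ∈ P) (hy : y ∈ P) : f y - f x = f' y - f' x := by
  induction hP x hx y hy with
  | refl => ring
  | tail hxz hs ih =>
    have e1 := ih hs.1
    have e2 := h _ hs.1 _ hs.2.1 hs.2.2
    have e3 := h' _ hs.1 _ hs.2.1 hs.2.2
    linarith

theorem Pot.par {P : Set V} {c : V} {f : V → ℤ} (hP : Conn P) (h : Pot P c f) (hc : c ∉ P)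
    {x y : V} (hx : x ∈ P) (hy : y ∈ P) :
    (2 : ℤ) ∣ f y - f x - (rho (y - c) - rho (x - c)) := by
  induction hP x hx y hy with
  | refl => exact ⟨0, by ring⟩
  | @tail z w hxz hs ih =>
    obtain ⟨k, hk⟩ := ih hs.1
    have e2 := h _ hs.1 _ hs.2.1 hs.2.2
    have n1 : z - c ≠ 0 := sub_ne_zero.2 fun h0 => hc (by rw [← h0]; exact hs.1)
    have n2 : w - c ≠ 0 := sub_ne_zero.2 fun h0 => hc (by rw [← h0]; exact hs.2.1)
    have ha : Adj (z - c) (w - c) := by
      rw [adj_iff, show w - c - (z - c) = w - z by abel]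
      exact adj_iff.1 hs.2.2
    obtain ⟨l, hl⟩ := bt_par ha n1 n2
    exact ⟨k + l, by linarith⟩

/-- Potentials exist on acyclic sets. -/
theorem exists_pot {P : Set V} (hP : Acyclic P) {c : V} (hc : c ∉ P) : ∃ f, Pot P c f := by
  have ha : Anti (fun z w => bt (z - c) (w - c)) := fun z w => bt_anti _ _
  have hcl : ClosedOn P (fun z w => bt (z - c) (w - c)) := by
    intro b z h1 _ h3
    have n1 : z - c ≠ 0 := sub_ne_zero.2 fun h0 => hc (by rw [← h0]; exact h1)
    have e3 : z + (1, 1) - c = z - c + (1, 1) := by abel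
    have n3 : z - c + (1, 1) ≠ 0 := by
      rw [← e3]
      exact sub_ne_zero.2 fun h0 => hc (by rw [← h0]; exact h3)
    have := curl_bt (b := b) n1 n3
    unfold curl at this ⊢
    simp only
    rw [e3, show z + mid b - c = z - c + mid b by abel]
    exact this
  obtain ⟨f, hf⟩ := hP _ ha hcl
  exact ⟨f, fun x hx x' hx' h => (hf x hx x' hx' h).symm⟩

/-- A lift of the angle to the product of two sets. -/
structure IsLift (P Q : Set V) (n : V → V → ℤ) : Prop where
  fst : ∀ x ∈ P, ∀ x' ∈ P, ∀ p ∈ Q, Adj x x' → n x' p - n x p = bt (x - p) (x' - p)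
  snd : ∀ x ∈ P, ∀ p ∈ Q, ∀ p' ∈ Q, Adj p p' → n x p' - n x p = bt (x - p) (x - p')

theorem IsLift.swap {P Q : Set V} {n : V → V → ℤ} (h : IsLift P Q n) :
    IsLift Q P (fun p x => n x p) where
  fst p hp p' hp' x hx hpp := by
    rw [← bt_sub_comm]
    exact h.snd x hx p hp p' hp' hpp
  snd p hp x hx x' hx' hxx := by
    rw [bt_sub_comm]
    exact h.fst x hx x' hx' p hp hxx

theorem IsLift.mono {P Q P' Q' : Set V} {n : V → V → ℤ} (h : IsLift P Q n) (hP : P' ⊆ P)
    (hQ : Q' ⊆ Q) : IsLift P' Q' n where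
  fst x hx x' hx' p hp hxx := h.fst x (hP hx) x' (hP hx') p (hQ hp) hxx
  snd x hx p hp p' hp' hpp := h.snd x (hP hx) p (hQ hp) p' (hQ hp') hpp

theorem IsLift.pot {P Q : Set V} {n : V → V → ℤ} (h : IsLift P Q n) {p : V} (hp : p ∈ Q) :
    Pot P p (fun x => n x p) := fun x hx x' hx' hxx => h.fst x hx x' hx' p hp hxx

/-- Two lifts on a connected product have the same differences. -/
theorem IsLift.unique {P Q : Set V} (hP : Conn P) (hQ : Conn Q) {n n' : V → V → ℤ}
    (h : IsLift P Q n) (h' : IsLift P Q n') {x y p q : V} (hx : x ∈ P) (hy : y ∈ P) (hp : p ∈ Q)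
    (hq : q ∈ Q) : n y q - n x p = n' y q - n' x p := by
  have e1 := Pot.unique hP (h.pot hq) (h'.pot hq) hx hy
  have e2 := Pot.unique hQ (h.swap.pot hx) (h'.swap.pot hx) hp hq
  linarith

/-- **Lifts exist on products of disjoint acyclic sets.** -/
theorem exists_lift {P Q : Set V} (hPQ : Disjoint P Q) (hP : Conn P) (hPa : Acyclic P)
    (hQa : Acyclic Q) : ∃ n, IsLift P Q n := by
  rcases P.eq_empty_or_nonempty with rfl | ⟨x0, hx0⟩
  · exact ⟨fun _ _ => 0, ⟨fun x hx => absurd hx (Set.notMem_empty x),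
      fun x hx => absurd hx (Set.notMem_empty x)⟩⟩
  have hne : ∀ x ∈ P, ∀ p ∈ Q, x ≠ p := fun x hx p hp h =>
    Set.disjoint_left.1 hPQ hx (by rw [h]; exact hp)
  have hex : ∀ p : V, ∃ f : V → ℤ, p ∈ Q → Pot P p f := by
    intro p
    by_cases hp : p ∈ Q
    · obtain ⟨f, hf⟩ := exists_pot hPa (c := p) fun h => hne p h p hp rfl
      exact ⟨f, fun _ => hf⟩
    · exact ⟨fun _ => 0, fun h => absurd h hp⟩
  choose f hf using hex
  have hx0Q : x0 ∉ Q := fun h => hne x0 hx0 x0 h rfl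
  obtain ⟨e0, he0⟩ := exists_pot hQa hx0Q
  set e : V → ℤ := fun p => f p x0 - e0 p with he
  refine ⟨fun x p => f p x - e p, ⟨?_, ?_⟩⟩
  · intro x hx x' hx' p hp hxx
    have := hf p hp x hx x' hx' hxx
    linarith
  · intro x hx p hp p' hp' hpp
    have hD : ∀ y, Relation.ReflTransGen (Stp P) x0 y →
        f p' y - f p y - bt (y - p) (y - p') = f p' x0 - f p x0 - bt (x0 - p) (x0 - p') := by
      intro y hy
      induction hy with
      | refl => rfl
      | @tail u v _ hs ih =>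
        rw [← ih]
        have e1 := hf p hp u hs.1 v hs.2.1 hs.2.2
        have e2 := hf p' hp' u hs.1 v hs.2.1 hs.2.2
        have e3 := bt_sq hs.2.2 hpp (hne u hs.1 p hp) (hne v hs.2.1 p hp) (hne u hs.1 p' hp')
          (hne v hs.2.1 p' hp')
        linarith
    have h1 := hD x (hP x0 hx0 x hx)
    have h2 := he0 p hp p' hp' hpp
    rw [← bt_sub_comm] at h2
    simp only [he]
    linarith

end Pool.Agent.Lib.MP_40f35d_gt.Pl
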