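import Pool.Agent.Lib.MP_40f35d_gt.Pl.Gr
import Pool.Agent.Lib.MP_40f35d_gt.Pl.An

/-!
# The tile trees of all levels

From the grids to the structure `Levels`.
-/

set_option autoImplicit false

namespace Pool.Agent.Lib.MP_40f35d_gt.Pl

open Relation

/-- The pixel of the coarse grid. -/
theorem fl_cl (o : E2) (b j : ℕ) (x : E2) :
    fl (2 ^ j) (cl o (1 / 2 ^ (b + j)) x) = cl o (1 / 2 ^ b) x := by
  have key : ∀ y : ℝ, ⌊y / (1 / 2 ^ (b + j))⌋ / ((2 ^ j : ℕ) : ℤ) = ⌊y / (1 / 2 ^ b)⌋ := by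
    intro y
    have hp : (0 : ℝ) < 2 ^ j := by positivity
    have e1 : y / (1 / 2 ^ (b + j)) = 2 ^ j * (y / (1 / 2 ^ b)) := by
      rw [pow_add]
      field_simp
    rw [e1, div_eq_iff' (by positivity)]
    have h1 := Int.floor_le (y / (1 / 2 ^ b))
    have h2 := Int.lt_floor_add_one (y / (1 / 2 ^ b))
    constructor
    · rw [Int.le_floor]
      push_cast
      exact mul_le_mul_of_nonneg_left h1 hp.le
    · rw [Int.floor_lt]
      push_cast
      have h3 := mul_lt_mul_of_pos_left h2 hp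
      linarith
  unfold fl cl
  rw [key, key]

theorem mem_nb_of {X : Set E2} {o : E2} {d : ℝ} {x : E2} (hx : x ∈ X) {z : V}
    (h1 : |z.1 - (cl o d x).1| ≤ 1) (h2 : |z.2 - (cl o d x).2| ≤ 1) : z ∈ nb X o d :=
  ⟨x, hx, h1, h2⟩

theorem cl_mem_nb {X : Set E2} {o : E2} {d : ℝ} {x : E2} (hx : x ∈ X) : cl o d x ∈ nb X o d :=
  mem_nb_of hx (by rw [sub_self]; decide) (by rw [sub_self]; decide)

theorem Grids.mono' {X : Set E2} {o : E2} {a : ℕ → ℕ} {N : ℕ → Set V} (h : Grids X o a N)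
    {m n : ℕ} (hmn : n ≤ m) : a n ≤ a m := monotone_nat_of_le_succ h.mono hmn

theorem Grids.sub' {X : Set E2} {o : E2} {a : ℕ → ℕ} {N : ℕ → Set V} (h : Grids X o a N)
    {m n : ℕ} (hmn : n ≤ m) : ∀ z ∈ N m, fl (2 ^ (a m - a n)) z ∈ N n := by
  induction m, hmn using Nat.le_induction with
  | base =>
    intro z hz
    rw [Nat.sub_self, pow_zero, fl_one]
    exact hz
  | succ m hmn ih =>
    intro z hz
    have h1 := ih _ (h.sub m z hz)
    rw [fl_fl, ← pow_add] at h1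
    have h2 := h.mono m
    have h3 := h.mono' hmn
    have e : a (m + 1) - a m + (a m - a n) = a (m + 1) - a n := by omega
    rwa [e] at h1

/-- The map of the tiles of level `m` to the tiles of level `n`. -/
theorem Grids.tm {X : Set E2} {o : E2} {a : ℕ → ℕ} {N : ℕ → Set V} (h : Grids X o a N)
    {m n : ℕ} (hmn : n ≤ m) : Tm (N m) (fl (2 ^ (a m - m))) (N n) (fl (2 ^ (a n - n)))
      (fl (2 ^ (a m - a n))) := by
  refine tm_fl (c := 2 ^ (m - n)) (by positivity) (h.sub' hmn) ?_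
  rw [← pow_add, ← pow_add]
  have h1 := (h.lv m).le
  have h2 := (h.lv n).le
  have h3 := h.mono' hmn
  congr 1
  omega

/-- The labels of tiles at distance `k` differ by at most `k`. -/
theorem tlab_walk {N : Set V} {c : ℕ} (hc : 0 < c) {s t : Tile N (fl c)} (p : (Tg N (fl c)).Walk s t) :
    |(tlab s).1 - (tlab t).1| ≤ p.length ∧ |(tlab s).2 - (tlab t).2| ≤ p.length := by
  induction p with
  | nil => simp
  | @cons s t u hst _ ih =>
    obtain ⟨_, z, w, rfl, rfl, hzw⟩ := tg_adj.1 hst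
    rw [tlab_til] at ih ⊢
    rw [SimpleGraph.Walk.length_cons]
    have h1 : |(fl c z.1).1 - (fl c w.1).1| ≤ 1 ∧ |(fl c z.1).2 - (fl c w.1).2| ≤ 1 := by
      rcases fl_adj hc hzw with h2 | h2
      · rw [h2]
        simp
      · obtain ⟨p, hp⟩ : ∃ p, p = fl c z.1 := ⟨_, rfl⟩
        obtain ⟨q, hq⟩ : ∃ q, q = fl c w.1 := ⟨_, rfl⟩
        rw [← hp, ← hq] at h2 ⊢
        obtain ⟨p1, p2⟩ := p
        obtain ⟨q1, q2⟩ := q
        simp only [Adj, Prod.mk_add_mk, Prod.mk.injEq] at h2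
        simp only [abs_le]
        omega
    push_cast
    have e1 : (fl c z.1).1 - (tlab u).1 = ((fl c z.1).1 - (fl c w.1).1) + ((fl c w.1).1 - (tlab u).1) := by
      ring
    have e2 : (fl c z.1).2 - (tlab u).2 = ((fl c z.1).2 - (fl c w.1).2) + ((fl c w.1).2 - (tlab u).2) := by
      ring
    rw [e1, e2]
    have h3 := abs_add_le ((fl c z.1).1 - (fl c w.1).1) ((fl c w.1).1 - (tlab u).1)
    have h4 := abs_add_le ((fl c z.1).2 - (fl c w.1).2) ((fl c w.1).2 - (tlab u).2)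
    constructor <;> linarith [ih.1, ih.2, h1.1, h1.2]

/-- Floors of close numbers. -/
theorem floor_close {x y d : ℝ} (hd : 0 < d) (h : |x - y| < d) : |⌊x / d⌋ - ⌊y / d⌋| ≤ 1 := by
  have h1 : |x / d - y / d| < 1 := by
    rw [← sub_div, abs_div, abs_of_pos hd, div_lt_one hd]
    exact h
  rw [abs_lt] at h1
  have h2 := Int.floor_le (x / d)
  have h3 := Int.lt_floor_add_one (x / d)
  have h4 := Int.floor_le (y / d)
  have h5 := Int.lt_floor_add_one (y / d)
  have h6 : (⌊x / d⌋ : ℝ) < ⌊y / d⌋ + 2 := by linarith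
  have h7 : (⌊y / d⌋ : ℝ) < ⌊x / d⌋ + 2 := by linarith
  have h8 : ⌊x / d⌋ < ⌊y / d⌋ + 2 := by exact_mod_cast h6
  have h9 : ⌊y / d⌋ < ⌊x / d⌋ + 2 := by exact_mod_cast h7
  rw [abs_le]
  omega

/-- Points with close floors are close. -/
theorem close_of_floor {x y o d : ℝ} (hd : 0 < d) {k : ℕ}
    (h : |⌊(x - o) / d⌋ - ⌊(y - o) / d⌋| ≤ (k : ℤ)) : |x - y| ≤ (k + 1) * d := by
  have h2 := Int.floor_le ((x - o) / d)
  have h3 := Int.lt_floor_add_one ((x - o) / d)
  have h4 := Int.floor_le ((y - o) / d)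
  have h5 := Int.lt_floor_add_one ((y - o) / d)
  rw [abs_le] at h
  have h6 : ((⌊(x - o) / d⌋ : ℤ) : ℝ) - ⌊(y - o) / d⌋ ≤ k := by exact_mod_cast h.2
  have h7 : -(k : ℝ) ≤ ((⌊(x - o) / d⌋ : ℤ) : ℝ) - ⌊(y - o) / d⌋ := by exact_mod_cast h.1
  have h8 : |(x - o) / d - (y - o) / d| ≤ k + 1 := by
    rw [abs_le]
    constructor <;> linarith
  have e : (x - o) / d - (y - o) / d = (x - y) / d := by ring
  rw [e, abs_div, abs_of_pos hd, div_le_iff₀ hd] at h8
  exact h8

/-- If the floor changes then the larger number is divisible. -/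
theorem dvd_of_ne {k : ℕ} (hk : 0 < k) {z : ℤ} (h : z / (k : ℤ) ≠ (z + 1) / (k : ℤ)) :
    (k : ℤ) ∣ z + 1 := by
  obtain ⟨a, ha⟩ : ∃ a, a = z / (k : ℤ) := ⟨_, rfl⟩
  obtain ⟨h1, h2⟩ := (div_eq_iff' hk z a).1 ha.symm
  rcases div_step hk z with h3 | h3
  · exact absurd h3.symm h
  · rw [← ha] at h3
    obtain ⟨h4, _⟩ := (div_eq_iff' hk (z + 1) (a + 1)).1 h3
    refine ⟨a + 1, ?_⟩
    rw [mul_add, mul_one] at h4 ⊢
    omega

/-- A pair of points at the distance `(1, -1)`: the tiles are equal or adjacent. -/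
theorem ea_diag {N : Set V} {k : ℕ} (hk : 0 < k) {p q : ℤ} (h1 : (p, q) ∈ N) (h2 : (p + 1, q) ∈ N)
    (h3 : (p + 1, q - 1) ∈ N) (hcor : ¬ ((k : ℤ) ∣ p + 1 ∧ (k : ℤ) ∣ q)) :
    Sw.Ea (Tg N (fl k)) (til (fl k) ⟨(p, q), h1⟩) (til (fl k) ⟨(p + 1, q - 1), h3⟩) := by
  have a1 : Adj (p, q) (p + 1, q) := by
    left
    simp
  have a2 : Adj (p + 1, q) (p + 1, q - 1) := by
    refine Adj.symm ?_
    right
    left
    simp
  by_cases hl : fl k (p, q) = fl k (p + 1, q)
  · have e1 : til (fl k) (⟨(p, q), h1⟩ : N) = til (fl k) ⟨(p + 1, q), h2⟩ := til_eq_of_adj a1 hl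
    rw [e1]
    exact til_eq_or_adj (a := ⟨(p + 1, q), h2⟩) (b := ⟨(p + 1, q - 1), h3⟩) a2
  · have h4 : (k : ℤ) ∣ p + 1 := by
      refine dvd_of_ne hk fun h5 => hl ?_
      unfold fl
      simp only
      rw [h5]
    have h6 : fl k (p + 1, q) = fl k (p + 1, q - 1) := by
      by_contra h7
      refine hcor ⟨h4, ?_⟩
      have h8 : (k : ℤ) ∣ (q - 1) + 1 := by
        refine dvd_of_ne hk fun h9 => h7 ?_
        unfold fl
        simp only
        rw [h9, sub_add_cancel]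
      rwa [sub_add_cancel] at h8
    have e1 : til (fl k) (⟨(p + 1, q), h2⟩ : N) = til (fl k) ⟨(p + 1, q - 1), h3⟩ :=
      til_eq_of_adj a2 h6
    rw [← e1]
    exact til_eq_or_adj (a := ⟨(p, q), h1⟩) (b := ⟨(p + 1, q), h2⟩) a1

/-- Two points of `N` whose coordinates differ by at most one. -/
theorem ea_close {N : Set V} {k : ℕ} (hk : 0 < k)
    (hcor : ∀ z ∈ N, ¬ ((k : ℤ) ∣ z.1 ∧ (k : ℤ) ∣ z.2)) {z w : V} (hz : z ∈ N) (hw : w ∈ N)
    (h1 : |z.1 - w.1| ≤ 1) (h2 : |z.2 - w.2| ≤ 1)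
    (hN : ∀ u : V, |u.1 - z.1| ≤ 1 → |u.2 - z.2| ≤ 1 → u ∈ N) :
    Sw.Ea (Tg N (fl k)) (til (fl k) ⟨z, hz⟩) (til (fl k) ⟨w, hw⟩) := by
  obtain ⟨p, q⟩ := z
  obtain ⟨p', q'⟩ := w
  simp only at h1 h2 hN
  by_cases hd : p' = p + 1 ∧ q' = q - 1
  · obtain ⟨rfl, rfl⟩ := hd
    have h3 : (p + 1, q) ∈ N := hN _ (by simp) (by simp)
    exact ea_diag hk hz h3 hw fun h4 => hcor _ h3 h4
  · by_cases hd' : p = p' + 1 ∧ q = q' - 1
    · obtain ⟨rfl, rfl⟩ := hd'
      have h3 : (p' + 1, q') ∈ N := hN _ (by simp) (by simp)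
      have h4 := ea_diag hk hw h3 hz fun h4 => hcor _ h3 h4
      rcases h4 with h4 | h4
      · exact Or.inl h4.symm
      · exact Or.inr h4.symm
    · by_cases he : p = p' ∧ q = q'
      · obtain ⟨rfl, rfl⟩ := he
        exact Or.inl rfl
      · have h3 : Adj (p, q) (p', q') := by
          simp only [Adj, Prod.mk_add_mk, Prod.mk.injEq]
          rw [abs_le] at h1 h2
          omega
        exact til_eq_or_adj (a := ⟨(p, q), hz⟩) (b := ⟨(p', q'), hw⟩) h3

theorem cells_pair {I : Type} {N : Set V} {lab : V → I} (s t : Tile N lab) :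
    cells ({s, t} : Set (Tile N lab)) = cells {s} ∪ cells {t} := by
  ext z
  constructor
  · rintro ⟨h1, h2⟩
    rcases h2 with h2 | h2
    · exact Or.inl ⟨h1, h2⟩
    · exact Or.inr ⟨h1, h2⟩
  · rintro (⟨h1, h2⟩ | ⟨h1, h2⟩)
    · exact ⟨h1, Or.inl h2⟩
    · exact ⟨h1, Or.inr h2⟩

theorem cells_union {I : Type} {N : Set V} {lab : V → I} (D : Set (Tile N lab)) :
    ⋃ x ∈ D, cells ({x} : Set (Tile N lab)) = cells D := by
  ext z
  rw [Set.mem_iUnion₂]
  constructor
  · rintro ⟨x, hx, h1, h2⟩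
    exact ⟨h1, by rw [Set.mem_singleton_iff.1 h2]; exact hx⟩
  · rintro ⟨h1, h2⟩
    exact ⟨_, h2, h1, rfl⟩

theorem cells_single_conn {I : Type} {N : Set V} {lab : V → I} (s : Tile N lab) :
    Conn (cells ({s} : Set (Tile N lab))) := by
  refine cells_conn fun x hx y hy => ?_
  rw [Set.mem_singleton_iff.1 hx, Set.mem_singleton_iff.1 hy]

theorem cells_pair_conn {I : Type} {N : Set V} {lab : V → I} {s t : Tile N lab}
    (h : (Tg N lab).Adj s t) : Conn (cells ({s, t} : Set (Tile N lab))) := by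
  refine cells_conn fun x hx y hy => ?_
  rcases hx with hx | hx
  · rcases hy with hy | hy
    · rw [hx, Set.mem_singleton_iff.1 hy]
    · rw [hx, Set.mem_singleton_iff.1 hy]
      exact ReflTransGen.single ⟨Or.inl rfl, Or.inr rfl, h⟩
  · rcases hy with hy | hy
    · rw [Set.mem_singleton_iff.1 hx, hy]
      exact ReflTransGen.single ⟨Or.inr rfl, Or.inl rfl, h.symm⟩
    · rw [Set.mem_singleton_iff.1 hx, Set.mem_singleton_iff.1 hy]

theorem fl_surj {k : ℕ} (hk : 0 < k) (a : V) : ∃ z, fl k z = a := by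
  refine ⟨((k : ℤ) * a.1, (k : ℤ) * a.2), ?_⟩
  rw [fl_eq_iff hk]
  have hk' : (0 : ℤ) < k := by exact_mod_cast hk
  exact ⟨⟨le_refl _, by simp only; omega⟩, le_refl _, by simp only; omega⟩

theorem Td.map_ang {I I' : Type} {N N' : Set V} {lab : V → I} {lab' : V → I'}
    (h : Td N lab) (h' : Td N' lab') {k : ℕ} (hk : 0 < k) (hm : Tm N' lab' N lab (fl k))
    [DecidableEq (Tile N lab)] : ∃ hh sg, Sw.Ang (Tg N lab) hh sg ∧
      Sw.AngPair (Tg N' lab') hm.map hh := by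
  refine angle_of_regions (Tg N lab) (Tg N' lab') hm.map (fun s => fl k ⁻¹' cells {s})
    (fun s => cells {s}) ?_ ?_ ?_ ?_ ?_ ?_ ?_ ?_ ?_ ?_ ?_
  · intro s t hst
    exact Disjoint.preimage _ (cells_disjoint (Set.disjoint_singleton.2 hst))
  · intro s
    obtain ⟨a, rfl⟩ := til_surj s
    obtain ⟨z, hz⟩ := fl_surj hk a.1
    exact ⟨z, by rw [Set.mem_preimage, hz]; exact mem_cells.2 rfl⟩
  · exact fun s => fl_conn hk (cells_single_conn s)
  · exact fun s => fl_cells_acyclic h hk _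
  · intro s t hst
    rw [← Set.preimage_union, ← cells_pair]
    exact ⟨fl_conn hk (cells_pair_conn hst), fl_cells_acyclic h hk _⟩
  · exact fun s t hst => cells_disjoint (Set.disjoint_singleton.2 hst)
  · intro s
    obtain ⟨a, rfl⟩ := til_surj s
    exact ⟨a.1, mem_cells.2 rfl⟩
  · intro s t hst
    rw [← cells_pair]
    exact cells_pair_conn hst
  · intro D hD
    rw [cells_union]
    exact ⟨cells_conn hD, cells_acyclic h' D⟩
  · intro s z hz
    refine hm.cells_map _ ?_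
    refine ⟨hz.1, ?_⟩
    rw [Set.mem_preimage, Set.mem_singleton_iff, Set.mem_singleton_iff.1 hz.2]
  · exact fun s t hst => hm.map_adj hst

/-- From the grids to the tile trees. -/
theorem levels_of_grids {X : Set E2} (hne : X.Nonempty) {o : E2} {a : ℕ → ℕ} {N : ℕ → Set V}
    (h : Grids X o a N) : Nonempty (Sw.Levels X) := by
  classical
  obtain ⟨x0, hx0⟩ := hne
  have hmem : ∀ n, ∀ x ∈ X, cl o (1 / 2 ^ a n) x ∈ N n := fun n x hx =>
    (h.lv n).mem (cl_mem_nb hx)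
  have hpos : ∀ j : ℕ, 0 < 2 ^ j := fun j => by positivity
  let T : ℕ → Type := fun n => Tile (N n) (fl (2 ^ (a n - n)))
  let df : ∀ n, T n := fun n => til (fl (2 ^ (a n - n))) ⟨_, hmem n x0 hx0⟩
  let g : ∀ m n, T m → T n := fun m n s => if hmn : n ≤ m then (h.tm hmn).map s else df n
  let t : ∀ n, E2 → T n := fun n x =>
    if hx : cl o (1 / 2 ^ a n) x ∈ N n then til (fl (2 ^ (a n - n))) ⟨_, hx⟩ else df n
  have hg : ∀ m n (hmn : n ≤ m) (s : T m), g m n s = (h.tm hmn).map s := fun m n hmn s =>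
    dif_pos hmn
  have hg' : ∀ m n (hmn : n ≤ m), g m n = (h.tm hmn).map := fun m n hmn =>
    funext (hg m n hmn)
  have ht : ∀ n, ∀ x (hx : x ∈ X), t n x = til (fl (2 ^ (a n - n))) ⟨_, hmem n x hx⟩ :=
    fun n x hx => dif_pos (hmem n x hx)
  have hcl : ∀ n m, n ≤ m → ∀ x, fl (2 ^ (a m - a n)) (cl o (1 / 2 ^ a m) x) =
      cl o (1 / 2 ^ a n) x := by
    intro n m hmn x
    have h1 := fl_cl o (a n) (a m - a n) x
    rwa [Nat.add_sub_cancel' (h.mono' hmn)] at h1
  refine ⟨{ T := T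
            fin := fun n => ?_
            dec := fun n => Classical.decEq _
            G := fun n => Tg (N n) (fl (2 ^ (a n - n)))
            tree := fun n => tile_tree (h.lv n).td (h.lv n).conn ⟨_, hmem n x0 hx0⟩
            g := g
            g_adj := ?_
            g_comp := ?_
            g_self := ?_
            t := t
            t_g := ?_
            C := 2
            size := ?_
            loc := ?_
            ang := ?_ }⟩
  · have := tile_finite (fl (2 ^ (a n - n))) (h.lv n).td.fin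
    exact Fintype.ofFinite _
  · intro m n hmn s s' hs
    rw [hg m n hmn, hg m n hmn]
    exact (h.tm hmn).map_adj hs
  · intro k m n hnm hmk s
    rw [hg m n hnm, hg k m hmk, hg k n (hnm.trans hmk)]
    refine (h.tm hnm).map_map (h.tm hmk) (h.tm (hnm.trans hmk)) (fun z _ => ?_) s
    rw [fl_fl, ← pow_add]
    have h1 := h.mono' hnm
    have h2 := h.mono' hmk
    congr 2
    omega
  · intro n s
    rw [hg n n le_rfl]
    refine (h.tm le_rfl).map_id (fun z _ => ?_) s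
    rw [Nat.sub_self, pow_zero, fl_one]
  · intro m n hmn x hx
    rw [hg m n hmn, ht m x hx, ht n x hx]
    show til _ _ = til _ _
    congr 1
    exact Subtype.ext (hcl n m hmn x)
  · intro n x hx y hy
    rw [ht n x hx, ht n y hy]
    have hc := (tile_tree (h.lv n).td (h.lv n).conn ⟨_, hmem n x0 hx0⟩).1
    obtain ⟨p, hp⟩ := hc.exists_walk_length_eq_dist
      (til (fl (2 ^ (a n - n))) ⟨_, hmem n x hx⟩) (til (fl (2 ^ (a n - n))) ⟨_, hmem n y hy⟩)
    have h1 := tlab_walk (hpos _) p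
    rw [hp, tlab_til, tlab_til] at h1
    simp only at h1
    have h2 : ∀ x, fl (2 ^ (a n - n)) (cl o (1 / 2 ^ a n) x) = cl o (1 / 2 ^ n) x := by
      intro x
      have h3 := fl_cl o n (a n - n) x
      rwa [Nat.add_sub_cancel' (h.lv n).le] at h3
    rw [h2, h2] at h1
    have hd : (0 : ℝ) < 1 / 2 ^ n := by positivity
    have h3 := close_of_floor hd h1.1
    have h4 := close_of_floor hd h1.2
    have h5 := dist_le_add x y
    refine h5.trans ((add_le_add h3 h4).trans (le_of_eq ?_))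
    ring
  · intro n
    refine ⟨1 / 2 ^ a n, by positivity, fun x hx y hy hxy => ?_⟩
    rw [ht n x hx, ht n y hy]
    have hd : (0 : ℝ) < 1 / 2 ^ a n := by positivity
    refine ea_close (hpos _) (h.lv n).cor (hmem n x hx) (hmem n y hy) ?_ ?_ ?_
    · refine floor_close hd (lt_of_le_of_lt ?_ hxy)
      have h1 := abs0_le x y
      have e : x 0 - o 0 - (y 0 - o 0) = x 0 - y 0 := by ring
      rw [e]
      exact h1
    · refine floor_close hd (lt_of_le_of_lt ?_ hxy)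
      have h1 := abs1_le x y
      have e : x 1 - o 1 - (y 1 - o 1) = x 1 - y 1 := by ring
      rw [e]
      exact h1
    · exact fun u h1 h2 => (h.lv n).mem (mem_nb_of hx h1 h2)
  · intro m n hmn
    rw [hg' m n hmn]
    exact @Td.map_ang _ _ _ _ _ _ (h.lv n).td (h.lv m).td _ (hpos _) (h.tm hmn)
      (Classical.decEq _)

end Pool.Agent.Lib.MP_40f35d_gt.Pl
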