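import Pool.Agent.Lib.MP_40f35d_gt.Pl.P2

/-!
# Gluing (P3): a point whose cut is exact on `N` lies in an infinite component
of the complement
-/

namespace Pool.Agent.Lib.MP_40f35d_gt.Pl

theorem const_on (g : ℤ → ℤ) {lo hi : ℤ} (h : lo ≤ hi)
    (hg : ∀ b, lo ≤ b → b < hi → g (b + 1) = g b) : g hi = g lo := by
  induction hi, h using Int.leInduction with
  | base => rfl
  | succ n hn ih =>
    rw [hg n hn (by omega)]
    exact ih (fun b h1 h2 => hg b h1 (by omega))

/-- The component of `v` in the complement of `N`. -/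
def Cmp (N : Set V) (v : V) : Set V := {w | Relation.ReflTransGen (Stp Nᶜ) v w}

theorem mem_cmp_self (N : Set V) (v : V) : v ∈ Cmp N v := Relation.ReflTransGen.refl

theorem not_mem_of_cmp {N : Set V} {v w : V} (hv : v ∉ N) (hw : w ∈ Cmp N v) : w ∉ N := by
  rcases Relation.ReflTransGen.cases_tail hw with h | ⟨c, _, h⟩
  · rw [h]; exact hv
  · exact h.2.1

theorem cmp_step {N : Set V} {v w u : V} (hv : v ∉ N) (hw : w ∈ Cmp N v) (h : Adj w u)
    (hu : u ∉ N) : u ∈ Cmp N v :=
  Relation.ReflTransGen.tail hw ⟨not_mem_of_cmp hv hw, hu, h⟩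

/-- A cochain which agrees outside a finite set with the cut of a triangle at `v` is not exact. -/
theorem not_exact_off {H : Set V} (hH : H.Finite) {v : V} (f : V → ℤ)
    (hf : ∀ z, z ∉ H → ∀ w, w ∉ H → Adj z w → kap true v z w = f w - f z) : False := by
  obtain ⟨M1, h1⟩ := (hH.image Prod.fst).bddAbove
  obtain ⟨M2, h2⟩ := (hH.image Prod.snd).bddAbove
  obtain ⟨M3, h3⟩ := (hH.image Prod.fst).bddBelow
  obtain ⟨M4, h4⟩ := (hH.image Prod.snd).bddBelow
  have g1 : ∀ z ∈ H, z.1 ≤ M1 := fun z hz => h1 ⟨z, hz, rfl⟩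
  have g2 : ∀ z ∈ H, z.2 ≤ M2 := fun z hz => h2 ⟨z, hz, rfl⟩
  have g3 : ∀ z ∈ H, M3 ≤ z.1 := fun z hz => h3 ⟨z, hz, rfl⟩
  have g4 : ∀ z ∈ H, M4 ≤ z.2 := fun z hz => h4 ⟨z, hz, rfl⟩
  obtain ⟨p, q⟩ := v
  set R : ℤ := |M1| + |M2| + |M3| + |M4| + |p| + |q| + 2 with hR
  have a1 := abs_nonneg M1
  have a2 := abs_nonneg M2
  have a3 := abs_nonneg M3
  have a4 := abs_nonneg M4
  have a5 := abs_nonneg p
  have a6 := abs_nonneg q
  have b1 := le_abs_self M1
  have b2 := le_abs_self M2
  have b3 := neg_abs_le M3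
  have b4 := neg_abs_le M4
  have b5 := le_abs_self p
  have b6 := le_abs_self q
  have b7 := neg_abs_le p
  have b8 := neg_abs_le q
  have o1 : ∀ b : ℤ, (R, b) ∉ H := fun b h => by
    have := g1 _ h
    simp only at this
    omega
  have o2 : ∀ b : ℤ, (-R, b) ∉ H := fun b h => by
    have := g3 _ h
    simp only at this
    omega
  have o3 : ∀ b : ℤ, (b, R) ∉ H := fun b h => by
    have := g2 _ h
    simp only at this
    omega
  have o4 : ∀ b : ℤ, (b, -R) ∉ H := fun b h => by
    have := g4 _ h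
    simp only at this
    omega
  have av : ∀ a b : ℤ, Adj (a, b) (a, b + 1) := fun a b => by
    right; left; simp
  have ah : ∀ a b : ℤ, Adj (a, b) (a + 1, b) := fun a b => by
    left; simp
  have kh : ∀ a b : ℤ, kap true (p, q) (a, b) (a + 1, b) = 0 := by
    intro a b
    simp [kap, Prod.ext_iff]
  have kv : ∀ a b : ℤ, kap true (p, q) (a, b) (a, b + 1) =
      if b = q ∧ p + 1 ≤ a then 1 else 0 := by
    intro a b
    simp [kap, Prod.ext_iff]
    intro h
    omega
  have c1 : f (R, q) = f (R, -R) := by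
    refine const_on (fun b => f (R, b)) (by omega) (fun b hb1 hb2 => ?_)
    have := hf _ (o1 b) _ (o1 (b + 1)) (av R b)
    rw [kv, if_neg (by omega)] at this
    show _ = _
    omega
  have c2 : f (R, R) = f (R, q + 1) := by
    refine const_on (fun b => f (R, b)) (by omega) (fun b hb1 hb2 => ?_)
    have := hf _ (o1 b) _ (o1 (b + 1)) (av R b)
    rw [kv, if_neg (by omega)] at this
    show _ = _
    omega
  have c3 : f (-R, R) = f (-R, -R) := by
    refine const_on (fun b => f (-R, b)) (by omega) (fun b hb1 hb2 => ?_)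
    have := hf _ (o2 b) _ (o2 (b + 1)) (av (-R) b)
    rw [kv, if_neg (by omega)] at this
    show _ = _
    omega
  have c4 : f (R, R) = f (-R, R) := by
    refine const_on (fun a => f (a, R)) (by omega) (fun a ha1 ha2 => ?_)
    have := hf _ (o3 a) _ (o3 (a + 1)) (ah a R)
    rw [kh] at this
    show _ = _
    omega
  have c5 : f (R, -R) = f (-R, -R) := by
    refine const_on (fun a => f (a, -R)) (by omega) (fun a ha1 ha2 => ?_)
    have := hf _ (o4 a) _ (o4 (a + 1)) (ah a (-R))
    rw [kh] at this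
    show _ = _
    omega
  have c6 := hf _ (o1 q) _ (o1 (q + 1)) (av R q)
  rw [kv, if_pos (by omega)] at c6
  omega

/-- (P3) Gluing: if the cut of a triangle at `v` is exact on `N` and `v` is not in `N`, then the
component of `v` in the complement of `N` is infinite. -/
theorem infinite_of_exact {N : Set V} {v : V} (hv : v ∉ N) (h : ExactOn N (kap true v)) :
    (Cmp N v).Infinite := by
  classical
  intro hfin
  obtain ⟨φ, hφ⟩ := h
  set H : Set V := Cmp N v with hH
  set ψ : V → ℤ := fun z => if z ∈ N then φ z else 0 with hψ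
  set θ : V → V → ℤ := fun z w => if z ∈ H ∨ w ∈ H then ψ w - ψ z else kap true v z w with hθ
  have hHN : ∀ z w, Adj z w → z ∈ H → w ∈ H ∨ w ∈ N := by
    intro z w hzw hz
    by_cases hw : w ∈ N
    · exact Or.inr hw
    · exact Or.inl (cmp_step hv hz hzw hw)
  have ha : Anti θ := by
    intro z w
    simp only [hθ]
    by_cases h : z ∈ H ∨ w ∈ H
    · rw [if_pos h, if_pos h.symm]; ring
    · rw [if_neg h, if_neg (fun h' => h h'.symm), kap_anti]
  have hgrad : ∀ z w, Adj z w → (z ∈ H ∨ z ∈ N) → (w ∈ H ∨ w ∈ N) → θ z w = ψ w - ψ z := by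
    intro z w hzw hz hw
    simp only [hθ]
    by_cases h : z ∈ H ∨ w ∈ H
    · rw [if_pos h]
    · rw [if_neg h]
      have hz' : z ∈ N := by tauto
      have hw' : w ∈ N := by tauto
      rw [hφ z hz' w hw' hzw]
      simp only [hψ, if_pos hz', if_pos hw']
  have adj1 : ∀ b z, Adj z (z + mid b) := by
    intro b z
    cases b
    · right; left; rfl
    · left; rfl
  have adj2 : ∀ b z, Adj (z + mid b) (z + (1, 1)) := by
    intro b z
    cases b
    · left
      rw [add_assoc]
      simp [mid]
    · right; left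
      rw [add_assoc]
      simp [mid]
  have adj3 : ∀ z, Adj z (z + (1, 1)) := fun z => by right; right; left; rfl
  have hc : ClosedOn Set.univ θ := by
    intro b z _ _ _
    by_cases hT : z ∈ H ∨ z + mid b ∈ H ∨ z + (1, 1) ∈ H
    · have hz : z ∈ H ∨ z ∈ N := by
        rcases hT with h | h | h
        · exact Or.inl h
        · exact hHN _ _ (adj1 b z).symm h
        · exact hHN _ _ (adj3 z).symm h
      have hm : z + mid b ∈ H ∨ z + mid b ∈ N := by
        rcases hT with h | h | h
        · exact hHN _ _ (adj1 b z) h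
        · exact Or.inl h
        · exact hHN _ _ (adj2 b z).symm h
      have ht : z + (1, 1) ∈ H ∨ z + (1, 1) ∈ N := by
        rcases hT with h | h | h
        · exact hHN _ _ (adj3 z) h
        · exact hHN _ _ (adj2 b z) h
        · exact Or.inl h
      unfold curl
      rw [hgrad _ _ (adj1 b z) hz hm, hgrad _ _ (adj2 b z) hm ht, hgrad _ _ (adj3 z) hz ht]
      ring
    · push Not at hT
      obtain ⟨t1, t2, t3⟩ := hT
      have h1 : curl θ b z = curl (kap true v) b z := by
        simp [curl, hθ, t1, t2, t3]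
      rw [h1, curl_kap, if_neg]
      rintro ⟨-, h2⟩
      exact t1 (by rw [h2]; exact mem_cmp_self N v)
  obtain ⟨f, hf⟩ := exact_univ ha hc
  refine not_exact_off hfin (v := v) f (fun z hz w hw hzw => ?_)
  have := hf z w hzw
  simp only [hθ] at this
  rw [if_neg (by tauto)] at this
  exact this

end Pool.Agent.Lib.MP_40f35d_gt.Pl
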