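import Pool.Agent.Lib.MP_40f35d_gt.Pl.W1
import Pool.Agent.Lib.MP_40f35d_gt.Pl.P3

/-!
# Tree-like continua do not separate the plane and have empty interior
-/

set_option autoImplicit false

open Set

namespace Pool.Agent.Lib.MP_40f35d_gt.Pl

theorem finite_near (o q : E2) {d : ℝ} (hd : 0 < d) (R : ℝ) :
    {z : V | dist (pt o d z) q ≤ R}.Finite := by
  have key : ∀ a b : ℝ, {x : ℤ | |a + d * (x : ℝ) - b| ≤ R}.Finite := by
    intro a b
    refine (Set.finite_Icc (⌊(b - a - R) / d⌋) (⌈(b - a + R) / d⌉)).subset ?_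
    intro x hx
    have h := abs_le.1 (show |a + d * (x : ℝ) - b| ≤ R from hx)
    refine ⟨?_, ?_⟩
    · have h1 : (b - a - R) / d ≤ x := by
        rw [div_le_iff₀ hd]
        linarith
      have h2 := (Int.floor_le ((b - a - R) / d)).trans h1
      exact_mod_cast h2
    · have h1 : (x : ℝ) ≤ (b - a + R) / d := by
        rw [le_div_iff₀ hd]
        linarith
      have h2 := h1.trans (Int.le_ceil ((b - a + R) / d))
      exact_mod_cast h2
  refine ((key (o 0) (q 0)).prod (key (o 1) (q 1))).subset ?_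
  intro z hz
  have h0 := (abs0_le (pt o d z) q).trans hz
  have h1 := (abs1_le (pt o d z) q).trans hz
  rw [pt_zero] at h0
  rw [pt_one] at h1
  exact ⟨h0, h1⟩

/-- **The complement near a tree-like continuum.** -/
theorem infinite_cmp {X : Set E2} (hX : IsCompact X) (hT : TreeLike X) {e : ℝ} (he : 0 < e) :
    ∃ r : ℝ, 0 < r ∧ ∀ (o : E2) (d : ℝ), 0 < d → d < r → ∀ (v : V) (N : Set V),
      (∀ z ∈ N, (∃ x ∈ X, dist (pt o d z) x < r) ∧ e ≤ dist (pt o d z) (pt o d v)) →
      v ∉ N ∧ (Cmp N v).Infinite := by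
  obtain ⟨r, hr, h⟩ := exact_near hX hT he
  refine ⟨r, hr, fun o d hd hdr v N hN => ?_⟩
  have hv : v ∉ N := fun hv => by
    have := (hN v hv).2
    rw [dist_self] at this
    linarith
  exact ⟨hv, infinite_of_exact hv (h o d hd hdr v N hN)⟩

/-- A tree-like continuum of the plane has empty interior. -/
theorem interior_empty {X : Set E2} (hX : IsCompact X) (hT : TreeLike X) : interior X = ∅ := by
  by_contra hne
  obtain ⟨p, hp⟩ := nonempty_iff_ne_empty.2 hne
  obtain ⟨R, hR, hball⟩ := Metric.isOpen_iff.1 isOpen_interior p hp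
  have hball' : Metric.ball p R ⊆ X := hball.trans interior_subset
  obtain ⟨r, hr, h⟩ := infinite_cmp hX hT (show (0 : ℝ) < R / 4 by positivity)
  obtain ⟨d, hd, hd1⟩ : ∃ d : ℝ, 0 < d ∧ d < min r (R / 16) :=
    exists_between (lt_min hr (by positivity))
  have hd2 : d < r := hd1.trans_le (min_le_left _ _)
  have hd3 : d < R / 16 := hd1.trans_le (min_le_right _ _)
  have hp0 : pt p d (0, 0) = p := by
    ext i
    fin_cases i
    · change p 0 + d * ((0 : ℤ) : ℝ) = p 0
      simp
    · change p 1 + d * ((0 : ℤ) : ℝ) = p 1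
      simp
  set N : Set V := {z | R / 4 ≤ dist (pt p d z) p ∧ dist (pt p d z) p < R} with hN
  obtain ⟨-, hinf⟩ := h p d hd hd2 (0, 0) N (by
    intro z hz
    rw [hp0]
    exact ⟨⟨pt p d z, hball' hz.2, by rw [dist_self]; exact hr⟩, hz.1⟩)
  refine hinf ((finite_near p p hd (R / 4)).subset ?_)
  intro z hz
  have key : dist (pt p d z) p < R / 4 := by
    induction (show Relation.ReflTransGen (Stp Nᶜ) (0, 0) z from hz) with
    | refl =>
      rw [hp0, dist_self]
      positivity
    | tail _ hbc ih =>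
      rename_i b c hab
      have h1 := dist_triangle (pt p d c) (pt p d b) p
      have h2 := dist_pt_adj p hd.le hbc.2.2.symm
      have h3 := ih hab
      have h4 : c ∉ N := hbc.2.1
      by_contra h5
      exact h4 ⟨not_lt.1 h5, by linarith⟩
  exact key.le

/-- **The grid.** There is an origin for which no dyadic grid point lies in `X`. -/
theorem exists_grid {X : Set E2} (hX : IsClosed X) (hi : interior X = ∅) :
    ∃ o : E2, ∀ (n : ℕ) (z : V), pt o (1 / 2 ^ n) z ∉ X := by
  have hadd : ∀ (o : E2) (d : ℝ) (z : V), pt o d z = o + pt 0 d z := by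
    intro o d z
    ext i
    fin_cases i
    · change o 0 + d * (z.1 : ℝ) = o 0 + (0 + d * (z.1 : ℝ))
      ring
    · change o 1 + d * (z.2 : ℝ) = o 1 + (0 + d * (z.2 : ℝ))
      ring
  have hd : Dense (⋂ k : ℕ × V, {o : E2 | pt o (1 / 2 ^ k.1) k.2 ∉ X}) := by
    have hpre : ∀ k : ℕ × V, {o : E2 | pt o (1 / 2 ^ k.1) k.2 ∉ X} =
        (Homeomorph.addRight (pt 0 (1 / 2 ^ k.1) k.2)) ⁻¹' Xᶜ := by
      intro k
      ext o
      simp only [mem_ofPred_eq, mem_preimage, mem_compl_iff, Homeomorph.coe_addRight]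
      rw [hadd]
    refine dense_iInter_of_isOpen (fun k => ?_) (fun k => ?_)
    · rw [hpre]
      exact hX.isOpen_compl.preimage (Homeomorph.continuous _)
    · rw [hpre]
      exact (interior_eq_empty_iff_dense_compl.1 hi).preimage (Homeomorph.isOpenMap _)
  obtain ⟨o, ho⟩ := hd.nonempty
  exact ⟨o, fun n z => mem_iInter.1 ho (n, z)⟩

end Pool.Agent.Lib.MP_40f35d_gt.Pl
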