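import Pool.Agent.Lib.MP_40f35d_gt.Pl.Gr
import Pool.Agent.Lib.MP_40f35d_gt.Pl.W2

/-!
# The cells near a plane continuum
The set `nb X o d` is finite, connected and close to `X`.
-/

set_option autoImplicit false

open Set Topology Relation

namespace Pool.Agent.Lib.MP_40f35d_gt.Pl

theorem cl_near1 {a b d : ℝ} (hd : 0 < d) {m : ℤ} (h : |m - ⌊(b - a) / d⌋| ≤ 1) :
    |a + d * (m : ℝ) - b| ≤ 2 * d := by
  obtain ⟨t, ht⟩ : ∃ t, t = (b - a) / d := ⟨_, rfl⟩
  rw [← ht] at h
  have h1 : b = a + d * t := by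
    rw [ht]
    field_simp
    ring
  have h2 := Int.floor_le t
  have h3 := Int.lt_floor_add_one t
  have h4 := abs_le.1 h
  have h5 : (-1 : ℝ) ≤ (m : ℝ) - ⌊t⌋ := by exact_mod_cast h4.1
  have h6 : (m : ℝ) - ⌊t⌋ ≤ 1 := by exact_mod_cast h4.2
  rw [h1, abs_le]
  constructor <;> nlinarith

theorem nb_near {X : Set E2} {o : E2} {d : ℝ} (hd : 0 < d) {z : V} (hz : z ∈ nb X o d) :
    ∃ x ∈ X, dist (pt o d z) x ≤ 4 * d := by
  obtain ⟨x, hx, h1, h2⟩ := hz
  refine ⟨x, hx, ?_⟩
  have h3 := cl_near1 (a := o 0) (b := x 0) hd h1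
  have h4 := cl_near1 (a := o 1) (b := x 1) hd h2
  have h5 := dist_le_add (pt o d z) x
  rw [pt_zero, pt_one] at h5
  linarith

theorem nb_finite {X : Set E2} (hX : IsCompact X) (o : E2) {d : ℝ} (hd : 0 < d) :
    (nb X o d).Finite := by
  obtain ⟨R, hR⟩ := hX.isBounded.subset_closedBall (0 : E2)
  refine (finite_near o 0 hd (R + 4 * d)).subset ?_
  intro z hz
  obtain ⟨x, hx, h⟩ := nb_near hd hz
  have h1 : dist x 0 ≤ R := hR hx
  show dist (pt o d z) 0 ≤ R + 4 * d
  have := dist_triangle (pt o d z) x 0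
  linarith

theorem floor_step {a b : ℝ} (h : |a - b| < 1) : |⌊a⌋ - ⌊b⌋| ≤ 1 := by
  have h1 := abs_lt.1 h
  rw [abs_le]
  constructor
  · have : ⌊b⌋ < ⌊a⌋ + 2 := by
      rw [Int.floor_lt]
      push_cast
      have := Int.lt_floor_add_one a
      linarith
    omega
  · have : ⌊a⌋ < ⌊b⌋ + 2 := by
      rw [Int.floor_lt]
      push_cast
      have := Int.lt_floor_add_one b
      linarith
    omega

theorem cl_step (o : E2) {d : ℝ} (hd : 0 < d) {x y : E2} (h : dist x y < d) :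
    |(cl o d x).1 - (cl o d y).1| ≤ 1 ∧ |(cl o d x).2 - (cl o d y).2| ≤ 1 := by
  have key : ∀ a b c : ℝ, |b - c| < d → |(b - a) / d - (c - a) / d| < 1 := by
    intro a b c hbc
    have : (b - a) / d - (c - a) / d = (b - c) / d := by ring
    rw [this, abs_div, abs_of_pos hd, div_lt_one hd]
    exact hbc
  exact ⟨floor_step (key _ _ _ ((abs0_le x y).trans_lt h)),
    floor_step (key _ _ _ ((abs1_le x y).trans_lt h))⟩

theorem mem_nb_self {X : Set E2} (o : E2) (d : ℝ) {x : E2} (hx : x ∈ X) : cl o d x ∈ nb X o d :=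
  ⟨x, hx, by simp, by simp⟩

/-- A cell of `nb X` is joined to the cell of the point of `X`. -/
theorem nb_walk {X : Set E2} {o : E2} {d : ℝ} {x : E2} (hx : x ∈ X) {z : V}
    (h1 : |z.1 - (cl o d x).1| ≤ 1) (h2 : |z.2 - (cl o d x).2| ≤ 1) :
    ReflTransGen (Stp (nb X o d)) z (cl o d x) := by
  have h3 := abs_le.1 h1
  have h4 := abs_le.1 h2
  have := rect_walk (S := nb X o d) (a := (cl o d x).1 - 1) (b := (cl o d x).1 + 1)
    (c := (cl o d x).2 - 1) (d := (cl o d x).2 + 1) (x := z.1) (y := z.2) (x' := (cl o d x).1)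
    (y' := (cl o d x).2) (fun s t a1 a2 a3 a4 => ⟨x, hx, by
      rw [abs_le]; constructor <;> simp only <;> linarith, by
      rw [abs_le]; constructor <;> simp only <;> linarith⟩)
    (by linarith) (by linarith) (by linarith) (by linarith) (by linarith) (by linarith)
    (by linarith) (by linarith)
  exact this

theorem nb_conn {X : Set E2} (hX : IsPreconnected X) (o : E2) {d : ℝ} (hd : 0 < d) :
    Conn (nb X o d) := by
  have hs : ∀ {a b : V}, ReflTransGen (Stp (nb X o d)) a b → ReflTransGen (Stp (nb X o d)) b a := by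
    intro a b h
    induction h with
    | refl => exact ReflTransGen.refl
    | tail _ h ih => exact ReflTransGen.head (Stp.symm h) ih
  have key : ∀ x ∈ X, ∀ y ∈ X, ReflTransGen (Stp (nb X o d)) (cl o d x) (cl o d y) := by
    intro x hx y hy
    refine hX.induction₂ (fun x y => ReflTransGen (Stp (nb X o d)) (cl o d x) (cl o d y))
      ?_ ?_ ?_ hx hy
    · intro x hx
      have h1 : ∀ᶠ y in 𝓝[X] x, dist x y < d := by
        refine Filter.Eventually.filter_mono nhdsWithin_le_nhds ?_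
        filter_upwards [Metric.ball_mem_nhds x hd] with y hy
        rw [dist_comm]
        exact hy
      filter_upwards [h1] with y hy
      have h2 := cl_step o hd hy
      have h3 : |(cl o d y).1 - (cl o d x).1| ≤ 1 := by rw [abs_sub_comm]; exact h2.1
      have h4 : |(cl o d y).2 - (cl o d x).2| ≤ 1 := by rw [abs_sub_comm]; exact h2.2
      exact hs (nb_walk hx h3 h4)
    · intro x y z _ _ _ h h'
      exact h.trans h'
    · intro x y _ _ h
      exact hs h
  intro z hz w hw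
  obtain ⟨x, hx, h1, h2⟩ := hz
  obtain ⟨y, hy, h3, h4⟩ := hw
  exact ((nb_walk hx h1 h2).trans (key x hx y hy)).trans (hs (nb_walk hy h3 h4))

/-- The points of the dyadic grid of level `n` stay away from `X`. -/
theorem grid_dist {X : Set E2} (hX : IsCompact X) {o : E2}
    (ho : ∀ (n : ℕ) (z : V), pt o (1 / 2 ^ n) z ∉ X) (n : ℕ) :
    ∃ c : ℝ, 0 < c ∧ ∀ z : V, ∀ x ∈ X, c ≤ dist (pt o (1 / 2 ^ n) z) x := by
  obtain ⟨R, hR⟩ := hX.isBounded.subset_closedBall (0 : E2)
  have hd : (0 : ℝ) < 1 / 2 ^ n := by positivity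
  have hfin := (finite_near o 0 hd (R + 1)).image (pt o (1 / 2 ^ n))
  have hdis : Disjoint X (pt o (1 / 2 ^ n) '' {z : V | dist (pt o (1 / 2 ^ n) z) 0 ≤ R + 1}) := by
    rw [Set.disjoint_right]
    rintro _ ⟨z, _, rfl⟩
    exact ho n z
  obtain ⟨c, hc, hcd⟩ := hdis.exists_thickenings hX hfin.isClosed
  refine ⟨min c 1, lt_min hc one_pos, ?_⟩
  intro z x hx
  by_contra hlt
  rw [not_le, lt_min_iff] at hlt
  have h1 : dist x 0 ≤ R := hR hx
  have h2 : dist (pt o (1 / 2 ^ n) z) 0 ≤ R + 1 := by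
    have := dist_triangle (pt o (1 / 2 ^ n) z) x 0
    linarith [hlt.2]
  refine Set.disjoint_left.1 hcd (Metric.self_subset_thickening hc X hx) ?_
  rw [Metric.mem_thickening_iff]
  exact ⟨_, ⟨z, h2, rfl⟩, by rw [dist_comm]; exact hlt.1⟩

end Pool.Agent.Lib.MP_40f35d_gt.Pl
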