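import Mathlib

/-!
# The triangular lattice: cochains, closed and exact (P0), (P1)

`V = Int x Int`, two points are adjacent when their difference is one of
plus or minus `(1,0)`, `(0,1)`, `(1,1)`.  An integer cochain is a function
`V -> V -> Int`, used on adjacent pairs only.  Every closed cochain on the
whole lattice is exact; for every triangle there is a cochain whose only
curvature sits on this triangle.
-/

namespace Pool.Agent.Lib.MP_40f35d_gt.Pl

/-- The points of the lattice. -/
abbrev V := ℤ × ℤ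

/-- Adjacency in the triangular lattice. -/
def Adj (z w : V) : Prop :=
  w = z + (1, 0) ∨ w = z + (0, 1) ∨ w = z + (1, 1) ∨
    z = w + (1, 0) ∨ z = w + (0, 1) ∨ z = w + (1, 1)

theorem Adj.symm {z w : V} (h : Adj z w) : Adj w z := by
  unfold Adj at *
  tauto

/-- Antisymmetry. -/
def Anti (θ : V → V → ℤ) : Prop := ∀ z w, θ z w = - θ w z

/-- The middle vertex of a triangle: the up triangle is `0, (1,0), (1,1)`, the
down triangle is `0, (0,1), (1,1)`. -/
def mid : Bool → V
  | true => (1, 0)
  | false => (0, 1)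

/-- The sum of a cochain around a triangle. -/
def curl (θ : V → V → ℤ) (b : Bool) (z : V) : ℤ :=
  θ z (z + mid b) + θ (z + mid b) (z + (1, 1)) - θ z (z + (1, 1))

/-- The vertices of a triangle. -/
def tri (b : Bool) (z : V) : Finset V := {z, z + mid b, z + (1, 1)}

/-- Closed on a set of vertices. -/
def ClosedOn (N : Set V) (θ : V → V → ℤ) : Prop :=
  ∀ b z, z ∈ N → z + mid b ∈ N → z + (1, 1) ∈ N → curl θ b z = 0

/-- Exact on a set of vertices. -/
def ExactOn (N : Set V) (θ : V → V → ℤ) : Prop :=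
  ∃ f : V → ℤ, ∀ z ∈ N, ∀ w ∈ N, Adj z w → θ z w = f w - f z

/-- A primitive of an integer function on the integers. -/
theorem exists_primitive (g : ℤ → ℤ) : ∃ F : ℤ → ℤ, F 0 = 0 ∧ ∀ n, F (n + 1) = F n + g n := by
  refine ⟨fun n => (∑ i ∈ Finset.Ico (0 : ℤ) n, g i) - ∑ i ∈ Finset.Ico n (0 : ℤ), g i, by simp, ?_⟩
  intro n
  rcases le_or_gt 0 n with h | h
  · have h1 : Finset.Ico (0 : ℤ) (n + 1) = insert n (Finset.Ico (0 : ℤ) n) := by
      ext x
      simp only [Finset.mem_Ico, Finset.mem_insert]
      omega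
    have h2 : Finset.Ico n (0 : ℤ) = ∅ := by
      apply Finset.Ico_eq_empty
      omega
    have h3 : Finset.Ico (n + 1) (0 : ℤ) = ∅ := by
      apply Finset.Ico_eq_empty
      omega
    simp only [h1, h2, h3, Finset.sum_empty]
    rw [Finset.sum_insert (by simp)]
    ring
  · have h1 : Finset.Ico n (0 : ℤ) = insert n (Finset.Ico (n + 1) (0 : ℤ)) := by
      ext x
      simp only [Finset.mem_Ico, Finset.mem_insert]
      omega
    have h2 : Finset.Ico (0 : ℤ) n = ∅ := by
      apply Finset.Ico_eq_empty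
      omega
    have h3 : Finset.Ico (0 : ℤ) (n + 1) = ∅ := by
      apply Finset.Ico_eq_empty
      omega
    simp only [h1, h2, h3, Finset.sum_empty]
    rw [Finset.sum_insert (by simp)]
    ring

/-- For an antisymmetric cochain exactness need only be checked on the three
positive directions. -/
theorem exactOn_of_pos {N : Set V} {θ : V → V → ℤ} (ha : Anti θ) (f : V → ℤ)
    (h1 : ∀ z, z ∈ N → z + (1, 0) ∈ N → θ z (z + (1, 0)) = f (z + (1, 0)) - f z)
    (h2 : ∀ z, z ∈ N → z + (0, 1) ∈ N → θ z (z + (0, 1)) = f (z + (0, 1)) - f z)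
    (h3 : ∀ z, z ∈ N → z + (1, 1) ∈ N → θ z (z + (1, 1)) = f (z + (1, 1)) - f z) :
    ∀ z ∈ N, ∀ w ∈ N, Adj z w → θ z w = f w - f z := by
  intro z hz w hw h
  rcases h with h | h | h | h | h | h
  · subst h; exact h1 z hz hw
  · subst h; exact h2 z hz hw
  · subst h; exact h3 z hz hw
  · subst h; have := h1 w hw hz; rw [ha, this]; ring
  · subst h; have := h2 w hw hz; rw [ha, this]; ring
  · subst h; have := h3 w hw hz; rw [ha, this]; ring

/-- (P0) Every closed cochain on the whole lattice is exact. -/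
theorem exact_univ {θ : V → V → ℤ} (ha : Anti θ) (hc : ClosedOn Set.univ θ) :
    ∃ f : V → ℤ, ∀ z w, Adj z w → θ z w = f w - f z := by
  obtain ⟨R, hR0, hR⟩ := exists_primitive (fun a => θ (a, 0) (a + 1, 0))
  choose C hC0 hC using fun a : ℤ => exists_primitive (fun b => θ (a, b) (a, b + 1))
  set f : V → ℤ := fun z => R z.1 + C z.1 z.2 with hf
  have hv : ∀ a b : ℤ, θ (a, b) (a, b + 1) = f (a, b + 1) - f (a, b) := by
    intro a b
    simp only [hf, hC a b]
    ring
  have hcu : ∀ a b : ℤ, θ (a, b) (a + 1, b) + θ (a + 1, b) (a + 1, b + 1) =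
      θ (a, b) (a + 1, b + 1) := by
    intro a b
    have := hc true (a, b) trivial trivial trivial
    simp only [curl, mid, Prod.mk_add_mk, add_zero] at this
    linarith
  have hcd : ∀ a b : ℤ, θ (a, b) (a, b + 1) + θ (a, b + 1) (a + 1, b + 1) =
      θ (a, b) (a + 1, b + 1) := by
    intro a b
    have := hc false (a, b) trivial trivial trivial
    simp only [curl, mid, Prod.mk_add_mk, add_zero] at this
    linarith
  have hstep : ∀ a b : ℤ, (θ (a, b) (a + 1, b) = f (a + 1, b) - f (a, b)) ↔
      (θ (a, b + 1) (a + 1, b + 1) = f (a + 1, b + 1) - f (a, b + 1)) := by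
    intro a b
    have h1 := hcu a b
    have h2 := hcd a b
    have h3 := hv a b
    have h4 := hv (a + 1) b
    constructor
    · intro h; linarith
    · intro h; linarith
  have hh : ∀ a b : ℤ, θ (a, b) (a + 1, b) = f (a + 1, b) - f (a, b) := by
    intro a b
    induction b using Int.induction_on with
    | zero =>
      simp only [hf, hC0, hR a]
      ring
    | succ i ih => exact (hstep a i).1 ih
    | pred i ih =>
      have := (hstep a (-(i : ℤ) - 1)).2
      rw [show -(i : ℤ) - 1 + 1 = -(i : ℤ) by ring] at this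
      exact this ih
  refine ⟨f, fun z w hzw => ?_⟩
  refine exactOn_of_pos (N := Set.univ) ha f ?_ ?_ ?_ z trivial w trivial hzw
  · rintro ⟨a, b⟩ - -
    have := hh a b
    simpa using this
  · rintro ⟨a, b⟩ - -
    have := hv a b
    simpa using this
  · rintro ⟨a, b⟩ - -
    have h1 := hcd a b
    have h2 := hv a b
    have h3 := hh a (b + 1)
    simp only [Prod.mk_add_mk] at *
    linarith

/-- The cut to the right of the triangle `b` at `(p, q)`: all edges from row `q` to
row `q + 1` to the right of the triangle. -/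
def kap (b : Bool) (p : V) (z w : V) : ℤ :=
  (if w = z + (0, 1) ∧ z.2 = p.2 ∧ p.1 + 1 ≤ z.1 then 1 else 0)
  + (if w = z + (1, 1) ∧ z.2 = p.2 ∧ (if b then p.1 + 1 ≤ z.1 else p.1 ≤ z.1) then 1 else 0)
  - (if z = w + (0, 1) ∧ w.2 = p.2 ∧ p.1 + 1 ≤ w.1 then 1 else 0)
  - (if z = w + (1, 1) ∧ w.2 = p.2 ∧ (if b then p.1 + 1 ≤ w.1 else p.1 ≤ w.1) then 1 else 0)

theorem kap_anti (b : Bool) (p : V) : Anti (kap b p) := by
  intro z w
  unfold kap
  ring

/-- (P1) The only curvature of `kap b p` sits on the triangle `b` at `p`. -/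
theorem curl_kap (b : Bool) (p : V) (b' : Bool) (z : V) :
    curl (kap b p) b' z = if b' = b ∧ z = p then (if b then 1 else -1) else 0 := by
  obtain ⟨a, c⟩ := z
  obtain ⟨p, q⟩ := p
  cases b <;> cases b' <;>
    simp [curl, kap, mid, Prod.ext_iff] <;> split_ifs <;> omega

end Pool.Agent.Lib.MP_40f35d_gt.Pl
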