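import Pool.Agent.Lib.MP_40f35d_gt.Pl.P0

/-!
# A finite set with connected complement is acyclic (P2)
-/

namespace Pool.Agent.Lib.MP_40f35d_gt.Pl

/-- Every closed cochain is exact. -/
def Acyclic (N : Set V) : Prop := ∀ θ : V → V → ℤ, Anti θ → ClosedOn N θ → ExactOn N θ

/-- One step of a walk in `N`. -/
def Stp (N : Set V) (z w : V) : Prop := z ∈ N ∧ w ∈ N ∧ Adj z w

/-- Connected by walks in `N`. -/
def Conn (N : Set V) : Prop := ∀ z ∈ N, ∀ w ∈ N, Relation.ReflTransGen (Stp N) z w

theorem ExactOn.mono {N M : Set V} {θ : V → V → ℤ} (h : ExactOn N θ) (hMN : M ⊆ N) :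
    ExactOn M θ := by
  obtain ⟨f, hf⟩ := h
  exact ⟨f, fun z hz w hw hzw => hf z (hMN hz) w (hMN hw) hzw⟩

theorem ExactOn.add {N : Set V} {θ η : V → V → ℤ} (h : ExactOn N θ) (h' : ExactOn N η) :
    ExactOn N (fun z w => θ z w + η z w) := by
  obtain ⟨f, hf⟩ := h
  obtain ⟨g, hg⟩ := h'
  refine ⟨fun z => f z + g z, fun z hz w hw hzw => ?_⟩
  simp only
  rw [hf z hz w hw hzw, hg z hz w hw hzw]
  ring

theorem ExactOn.mul {N : Set V} {θ : V → V → ℤ} (h : ExactOn N θ) (c : ℤ) :
    ExactOn N (fun z w => c * θ z w) := by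
  obtain ⟨f, hf⟩ := h
  refine ⟨fun z => c * f z, fun z hz w hw hzw => ?_⟩
  simp only
  rw [hf z hz w hw hzw]
  ring

theorem ExactOn.sub {N : Set V} {θ η : V → V → ℤ} (h : ExactOn N θ) (h' : ExactOn N η) :
    ExactOn N (fun z w => θ z w - η z w) := by
  obtain ⟨f, hf⟩ := h
  obtain ⟨g, hg⟩ := h'
  refine ⟨fun z => f z - g z, fun z hz w hw hzw => ?_⟩
  simp only
  rw [hf z hz w hw hzw, hg z hz w hw hzw]
  ring

theorem ExactOn.sum {N : Set V} {ι : Type} (T : Finset ι) (θ : ι → V → V → ℤ)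
    (h : ∀ i ∈ T, ExactOn N (θ i)) : ExactOn N (fun z w => ∑ i ∈ T, θ i z w) := by
  classical
  induction T using Finset.induction_on with
  | empty => exact ⟨fun _ => 0, fun z _ w _ _ => by simp⟩
  | insert a T ha ih =>
    have h1 := h a (Finset.mem_insert_self a T)
    have h2 := ih (fun i hi => h i (Finset.mem_insert_of_mem hi))
    have h3 := h1.add h2
    obtain ⟨f, hf⟩ := h3
    refine ⟨f, fun z hz w hw hzw => ?_⟩
    rw [← hf z hz w hw hzw]
    simp only
    rw [Finset.sum_insert ha]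

theorem ExactOn.congr {N : Set V} {θ η : V → V → ℤ} (h : ExactOn N θ)
    (he : ∀ z ∈ N, ∀ w ∈ N, η z w = θ z w) : ExactOn N η := by
  obtain ⟨f, hf⟩ := h
  exact ⟨f, fun z hz w hw hzw => by rw [he z hz w hw, hf z hz w hw hzw]⟩

/-- Equality of two cochains up to an exact one. -/
def Eqv (N : Set V) (θ η : V → V → ℤ) : Prop := ExactOn N (fun z w => θ z w - η z w)

theorem Eqv.refl (N : Set V) (θ : V → V → ℤ) : Eqv N θ θ :=
  ⟨fun _ => 0, fun z _ w _ _ => by simp⟩

theorem Eqv.symm {N : Set V} {θ η : V → V → ℤ} (h : Eqv N θ η) : Eqv N η θ := by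
  obtain ⟨f, hf⟩ := h
  refine ⟨fun z => - f z, fun z hz w hw hzw => ?_⟩
  have := hf z hz w hw hzw
  simp only at this ⊢
  linarith

theorem Eqv.trans {N : Set V} {θ η ζ : V → V → ℤ} (h : Eqv N θ η) (h' : Eqv N η ζ) :
    Eqv N θ ζ := by
  have h3 := ExactOn.add h h'
  exact h3.congr (fun z _ w _ => by ring)

theorem Eqv.exact {N : Set V} {θ η : V → V → ℤ} (h : Eqv N θ η) (h' : ExactOn N η) :
    ExactOn N θ := (ExactOn.add h h').congr (fun z _ w _ => by ring)

theorem eqv_diag {N : Set V} {p : V} (h : p ∉ N ∨ p + (1, 1) ∉ N) :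
    Eqv N (kap true p) (kap false p) := by
  refine ⟨fun _ => 0, exactOn_of_pos ?_ _ ?_ ?_ ?_⟩
  · intro z w
    simp only [kap_anti true p z w, kap_anti false p z w]
    ring
  · intro z _ _
    obtain ⟨a, c⟩ := z
    obtain ⟨p, q⟩ := p
    simp [kap, Prod.ext_iff]
  · intro z _ _
    obtain ⟨a, c⟩ := z
    obtain ⟨p, q⟩ := p
    simp [kap, Prod.ext_iff]
  · intro z hz hz'
    have hne : z ≠ p := by
      rintro rfl
      tauto
    obtain ⟨a, c⟩ := z
    obtain ⟨p, q⟩ := p
    simp only [Ne, Prod.ext_iff, not_and] at hne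
    simp [kap, Prod.ext_iff]
    split_ifs <;> omega

theorem eqv_ver {N : Set V} {p : V} (h : p + (1, 0) ∉ N ∨ p + (1, 1) ∉ N) :
    Eqv N (kap false (p + (1, 0))) (kap true p) := by
  refine ⟨fun _ => 0, exactOn_of_pos ?_ _ ?_ ?_ ?_⟩
  · intro z w
    simp only [kap_anti false (p + (1, 0)) z w, kap_anti true p z w]
    ring
  · intro z _ _
    obtain ⟨a, c⟩ := z
    obtain ⟨p, q⟩ := p
    simp [kap, Prod.ext_iff]
  · intro z hz hz'
    have hne : z ≠ p + (1, 0) := by
      rintro rfl
      rw [add_assoc] at hz'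
      simp only [Prod.mk_add_mk, add_zero, zero_add] at hz'
      tauto
    obtain ⟨a, c⟩ := z
    obtain ⟨p, q⟩ := p
    simp only [Ne, Prod.ext_iff, not_and, Prod.fst_add, Prod.snd_add] at hne
    simp [kap, Prod.ext_iff]
    split_ifs <;> omega
  · intro z _ _
    obtain ⟨a, c⟩ := z
    obtain ⟨p, q⟩ := p
    simp [kap, Prod.ext_iff]

theorem eqv_hor {N : Set V} {p : V} (h : p + (0, 1) ∉ N ∨ p + (1, 1) ∉ N) :
    Eqv N (kap false p) (kap true (p + (0, 1))) := by
  refine ⟨fun z => if z.2 = p.2 + 1 ∧ p.1 + 1 ≤ z.1 then 1 else 0, exactOn_of_pos ?_ _ ?_ ?_ ?_⟩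
  · intro z w
    simp only [kap_anti true (p + (0, 1)) z w, kap_anti false p z w]
    ring
  · intro z hz hz'
    have hne : z ≠ p + (0, 1) := by
      rintro rfl
      rw [add_assoc] at hz'
      simp only [Prod.mk_add_mk, add_zero, zero_add] at hz'
      tauto
    obtain ⟨a, c⟩ := z
    obtain ⟨p, q⟩ := p
    simp only [Ne, Prod.ext_iff, not_and, Prod.fst_add, Prod.snd_add] at hne
    simp [kap, Prod.ext_iff]
    split_ifs <;> omega
  · intro z _ _
    obtain ⟨a, c⟩ := z
    obtain ⟨p, q⟩ := p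
    simp [kap, Prod.ext_iff]
    split_ifs <;> omega
  · intro z _ _
    obtain ⟨a, c⟩ := z
    obtain ⟨p, q⟩ := p
    simp [kap, Prod.ext_iff]
    split_ifs <;> omega

/-- All triangles around a point outside `N` have equivalent cuts. -/
theorem eqv_around {N : Set V} {v : V} (hv : v ∉ N) :
    Eqv N (kap true v) (kap false v) ∧ Eqv N (kap true v) (kap true (v - (1, 0))) ∧
    Eqv N (kap true v) (kap false (v - (1, 1))) ∧ Eqv N (kap true v) (kap true (v - (1, 1))) ∧
    Eqv N (kap true v) (kap false (v - (0, 1))) := by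
  have e1 : Eqv N (kap true v) (kap false v) := eqv_diag (Or.inl hv)
  have e2 : Eqv N (kap false v) (kap true (v - (1, 0))) := by
    have := eqv_ver (N := N) (p := v - (1, 0)) (Or.inl (by rwa [sub_add_cancel]))
    rwa [sub_add_cancel] at this
  have e3 : Eqv N (kap false (v - (1, 1))) (kap true (v - (1, 0))) := by
    have h1 : v - (1, 1) + (0, 1) = v - (1, 0) := by
      ext <;> simp
    have := eqv_hor (N := N) (p := v - (1, 1)) (Or.inr (by rwa [sub_add_cancel]))
    rwa [h1] at this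
  have e4 : Eqv N (kap true (v - (1, 1))) (kap false (v - (1, 1))) :=
    eqv_diag (Or.inr (by rwa [sub_add_cancel]))
  have e5 : Eqv N (kap false (v - (0, 1))) (kap true v) := by
    have := eqv_hor (N := N) (p := v - (0, 1)) (Or.inl (by rwa [sub_add_cancel]))
    rwa [sub_add_cancel] at this
  refine ⟨e1, e1.trans e2, (e1.trans e2).trans e3.symm,
    ((e1.trans e2).trans e3.symm).trans e4.symm, e5.symm⟩

/-- Every triangle with a vertex `v` outside `N` has a cut equivalent to that of `v`. -/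
theorem eqv_tri {N : Set V} {v : V} (hv : v ∉ N) (b : Bool) (z : V)
    (h : v = z ∨ v = z + mid b ∨ v = z + (1, 1)) : Eqv N (kap b z) (kap true v) := by
  obtain ⟨h1, h2, h3, h4, h5⟩ := eqv_around hv
  rcases h with h | h | h
  · subst h
    cases b
    · exact h1.symm
    · exact Eqv.refl _ _
  · cases b
    · have : z = v - (0, 1) := by rw [h]; simp [mid]
      rw [this]
      exact h5.symm
    · have : z = v - (1, 0) := by rw [h]; simp [mid]
      rw [this]
      exact h2.symm
  · have : z = v - (1, 1) := by rw [h]; simp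
    rw [this]
    cases b
    · exact h3.symm
    · exact h4.symm

theorem eqv_adj {N : Set V} {v w : V} (hv : v ∉ N) (hw : w ∉ N) (h : Adj v w) :
    Eqv N (kap true v) (kap true w) := by
  rcases h with h | h | h | h | h | h
  · exact (eqv_tri hv true v (Or.inl rfl)).symm.trans (eqv_tri hw true v (Or.inr (Or.inl h)))
  · exact (eqv_tri hv false v (Or.inl rfl)).symm.trans (eqv_tri hw false v (Or.inr (Or.inl h)))
  · exact (eqv_tri hv true v (Or.inl rfl)).symm.trans (eqv_tri hw true v (Or.inr (Or.inr h)))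
  · exact (eqv_tri hv true w (Or.inr (Or.inl h))).symm.trans (eqv_tri hw true w (Or.inl rfl))
  · exact (eqv_tri hv false w (Or.inr (Or.inl h))).symm.trans (eqv_tri hw false w (Or.inl rfl))
  · exact (eqv_tri hv true w (Or.inr (Or.inr h))).symm.trans (eqv_tri hw true w (Or.inl rfl))

theorem eqv_conn {N : Set V} {v w : V}
    (h : Relation.ReflTransGen (Stp Nᶜ) v w) : Eqv N (kap true v) (kap true w) := by
  induction h with
  | refl => exact Eqv.refl _ _
  | tail _ h ih => exact ih.trans (eqv_adj h.1 h.2.1 h.2.2)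

/-- Far away there is a point outside `N` whose cut does not meet `N`. -/
theorem exists_far {N : Set V} (hN : N.Finite) : ∃ v : V, v ∉ N ∧ ExactOn N (kap true v) := by
  obtain ⟨M, hM⟩ := (hN.image Prod.snd).bddAbove
  have hM' : ∀ z ∈ N, z.2 ≤ M := fun z hz => hM ⟨z, hz, rfl⟩
  refine ⟨(0, M + 1), ?_, fun _ => 0, ?_⟩
  · intro h
    have := hM' _ h
    simp at this
  · intro z hz w hw _
    have h1 := hM' z hz
    have h2 := hM' w hw
    have h3 : ¬ z.2 = M + 1 := by omega
    have h4 : ¬ w.2 = M + 1 := by omega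
    simp [kap, h3, h4]

theorem curl_add (θ η : V → V → ℤ) (b : Bool) (z : V) :
    curl (fun z w => θ z w + η z w) b z = curl θ b z + curl η b z := by
  simp only [curl]
  ring

theorem curl_sub (θ η : V → V → ℤ) (b : Bool) (z : V) :
    curl (fun z w => θ z w - η z w) b z = curl θ b z - curl η b z := by
  simp only [curl]
  ring

theorem curl_mul (θ : V → V → ℤ) (c : ℤ) (b : Bool) (z : V) :
    curl (fun z w => c * θ z w) b z = c * curl θ b z := by
  simp only [curl]
  ring

theorem curl_sum {ι : Type} (T : Finset ι) (θ : ι → V → V → ℤ) (b : Bool) (z : V) :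
    curl (fun z w => ∑ i ∈ T, θ i z w) b z = ∑ i ∈ T, curl (θ i) b z := by
  simp only [curl]
  rw [Finset.sum_sub_distrib, Finset.sum_add_distrib]

/-- (P2) A finite set with connected complement is acyclic. -/
theorem acyclic_of_compl {N : Set V} (hN : N.Finite) (hc : Conn Nᶜ) : Acyclic N := by
  classical
  intro θ ha hcl
  obtain ⟨v0, hv0, hv0e⟩ := exists_far hN
  have hker : ∀ b z, (z ∉ N ∨ z + mid b ∉ N ∨ z + (1, 1) ∉ N) → ExactOn N (kap b z) := by
    intro b z h
    rcases h with h | h | h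
    · exact ((eqv_tri h b z (Or.inl rfl)).trans (eqv_conn (hc _ h _ hv0))).exact hv0e
    · exact ((eqv_tri h b z (Or.inr (Or.inl rfl))).trans (eqv_conn (hc _ h _ hv0))).exact hv0e
    · exact ((eqv_tri h b z (Or.inr (Or.inr rfl))).trans (eqv_conn (hc _ h _ hv0))).exact hv0e
  set η : V → V → ℤ := fun z w => if z ∈ N ∧ w ∈ N then θ z w else 0 with hη
  have hηa : Anti η := by
    intro z w
    simp only [hη]
    by_cases h : z ∈ N ∧ w ∈ N
    · rw [if_pos h, if_pos h.symm, ha]
    · rw [if_neg h, if_neg (fun h' => h h'.symm)]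
      simp
  set F : Finset V := hN.toFinset with hF
  set G : Finset V := F ∪ F.image (fun z => z - (1, 0)) ∪ F.image (fun z => z - (0, 1)) with hG
  set T : Finset (Bool × V) := (Finset.univ : Finset Bool) ×ˢ G with hT
  have hcurl0 : ∀ b z, (b, z) ∉ T → curl η b z = 0 := by
    intro b z h
    have h1 : z ∉ N ∧ z + mid b ∉ N := by
      simp only [hT, hG, hF, Finset.mem_product, Finset.mem_univ, true_and, Finset.mem_union,
        Finset.mem_image, Set.Finite.mem_toFinset, not_or, not_exists, not_and] at h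
      refine ⟨h.1.1, fun h' => ?_⟩
      cases b
      · exact h.2 _ h' (by simp [mid])
      · exact h.1.2 _ h' (by simp [mid])
    simp [curl, hη, h1.1, h1.2]
  set c : Bool × V → ℤ := fun t => (if t.1 then 1 else -1) * curl η t.1 t.2 with hcdef
  have hcN : ∀ b z, z ∈ N → z + mid b ∈ N → z + (1, 1) ∈ N → c (b, z) = 0 := by
    intro b z h1 h2 h3
    have : curl η b z = curl θ b z := by simp [curl, hη, h1, h2, h3]
    simp only [hcdef, this, hcl b z h1 h2 h3, mul_zero]
  have hclosed : ClosedOn Set.univ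
      (fun z w => η z w - ∑ t ∈ T, c t * kap t.1 t.2 z w) := by
    intro b z _ _ _
    rw [curl_sub, curl_sum T (fun t z w => c t * kap t.1 t.2 z w)]
    simp only [curl_mul, curl_kap]
    by_cases hbz : (b, z) ∈ T
    · rw [Finset.sum_eq_single (b, z)]
      · cases b <;> simp [hcdef]
      · intro t _ ht
        have : ¬ (b = t.1 ∧ z = t.2) := fun h => ht (Prod.ext h.1.symm h.2.symm)
        rw [if_neg this, mul_zero]
      · intro h; exact absurd hbz h
    · rw [hcurl0 b z hbz, Finset.sum_eq_zero]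
      · simp
      · intro t ht
        have : ¬ (b = t.1 ∧ z = t.2) := by
          rintro ⟨h1, h2⟩
          apply hbz
          rw [h1, h2]
          exact ht
        rw [if_neg this, mul_zero]
  have hanti : Anti (fun z w => η z w - ∑ t ∈ T, c t * kap t.1 t.2 z w) := by
    intro z w
    simp only
    rw [hηa z w]
    have : ∑ t ∈ T, c t * kap t.1 t.2 z w = - ∑ t ∈ T, c t * kap t.1 t.2 w z := by
      rw [← Finset.sum_neg_distrib]
      refine Finset.sum_congr rfl (fun t _ => ?_)
      rw [kap_anti t.1 t.2 z w]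
      ring
    rw [this]
    ring
  obtain ⟨f, hf⟩ := exact_univ hanti hclosed
  have h1 : ExactOn N (fun z w => η z w - ∑ t ∈ T, c t * kap t.1 t.2 z w) :=
    ⟨f, fun z _ w _ h => hf z w h⟩
  have h2 : ExactOn N (fun z w => ∑ t ∈ T, c t * kap t.1 t.2 z w) := by
    refine ExactOn.sum T (fun t z w => c t * kap t.1 t.2 z w) (fun t _ => ?_)
    obtain ⟨b, z⟩ := t
    by_cases h : z ∈ N ∧ z + mid b ∈ N ∧ z + (1, 1) ∈ N
    · rw [hcN b z h.1 h.2.1 h.2.2]
      exact ⟨fun _ => 0, fun _ _ _ _ _ => by simp⟩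
    · exact (hker b z (by tauto)).mul _
  refine (h1.add h2).congr (fun z hz w hw => ?_)
  simp [hη, hz, hw]

end Pool.Agent.Lib.MP_40f35d_gt.Pl
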