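import Pool.Agent.Lib.MP_40f35d_gt.Pl.P2

/-!
# Tiles (P4)

`N` is a finite set of lattice points, `lab` a labelling of the lattice with connected classes (the
squares of a coarse grid). The tiles are the connected components of the classes in `N`. If no class
is contained in `N`, every union of tiles has a connected complement, so it is acyclic. If moreover
no triangle of `N` has three labels, then the graph of the tiles is a tree.
-/

set_option autoImplicit false

namespace Pool.Agent.Lib.MP_40f35d_gt.Pl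

open Relation

variable {I : Type}

private theorem rtg_symm {α : Type} {r : α → α → Prop} (hr : ∀ a b, r a b → r b a) {a b : α}
    (h : ReflTransGen r a b) : ReflTransGen r b a := by
  induction h with
  | refl => exact ReflTransGen.refl
  | @tail b c _ h2 ih => exact ReflTransGen.head (hr _ _ h2) ih

private theorem rtg_mono {α : Type} {r q : α → α → Prop} (hr : ∀ a b, r a b → q a b) {a b : α}
    (h : ReflTransGen r a b) : ReflTransGen q a b := by
  induction h with
  | refl => exact ReflTransGen.refl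
  | @tail b c _ h2 ih => exact ih.tail (hr _ _ h2)

/-- The hypotheses on the finite set `N` and the labelling. -/
structure Td (N : Set V) (lab : V → I) : Prop where
  fin : N.Finite
  compl : Conn Nᶜ
  out : ∀ z ∈ N, ∃ w, w ∉ N ∧ lab w = lab z
  blk : ∀ z w, lab z = lab w → ReflTransGen (Stp {u | lab u = lab z}) z w
  tri : ∀ b z, z ∈ N → z + mid b ∈ N → z + (1, 1) ∈ N →
    lab z = lab (z + mid b) ∨ lab (z + mid b) = lab (z + (1, 1)) ∨ lab z = lab (z + (1, 1))

/-- One step inside a tile. -/
def Ts (N : Set V) (lab : V → I) (a b : N) : Prop := Adj a.1 b.1 ∧ lab a.1 = lab b.1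

theorem Ts.symm {N : Set V} {lab : V → I} {a b : N} (h : Ts N lab a b) : Ts N lab b a :=
  ⟨h.1.symm, h.2.symm⟩

/-- Two points of `N` are in the same tile. -/
def tset (N : Set V) (lab : V → I) : Setoid N where
  r := ReflTransGen (Ts N lab)
  iseqv := ⟨fun _ => ReflTransGen.refl, fun h => rtg_symm (fun _ _ k => k.symm) h,
    fun h k => h.trans k⟩

/-- The tiles. -/
def Tile (N : Set V) (lab : V → I) : Type := Quotient (tset N lab)

/-- The tile of a point. -/
def til {N : Set V} (lab : V → I) (a : N) : Tile N lab := Quotient.mk (tset N lab) a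

theorem til_surj {N : Set V} {lab : V → I} (s : Tile N lab) : ∃ a : N, til lab a = s :=
  Quotient.exists_rep s

theorem til_eq_iff {N : Set V} {lab : V → I} {a b : N} :
    til lab a = til lab b ↔ ReflTransGen (Ts N lab) a b :=
  ⟨fun h => Quotient.exact h, fun h => Quotient.sound h⟩

theorem til_eq_of_adj {N : Set V} {lab : V → I} {a b : N} (h : Adj a.1 b.1)
    (hl : lab a.1 = lab b.1) : til lab a = til lab b :=
  til_eq_iff.2 (ReflTransGen.single ⟨h, hl⟩)

theorem lab_eq {N : Set V} {lab : V → I} {a b : N} (h : til lab a = til lab b) :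
    lab a.1 = lab b.1 := by
  have h1 := til_eq_iff.1 h
  induction h1 with
  | refl => rfl
  | @tail b c h1 h2 ih => exact (ih (til_eq_iff.2 h1)).trans h2.2

/-- The label of a tile. -/
def tlab {N : Set V} {lab : V → I} : Tile N lab → I :=
  Quotient.lift (fun a : N => lab a.1) fun _ _ h => lab_eq (til_eq_iff.2 h)

theorem tlab_til {N : Set V} {lab : V → I} (a : N) : tlab (til lab a) = lab a.1 := rfl

/-- The graph of the tiles. -/
def Tg (N : Set V) (lab : V → I) : SimpleGraph (Tile N lab) where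
  Adj s t := s ≠ t ∧ ∃ z w : N, til lab z = s ∧ til lab w = t ∧ Adj z.1 w.1
  symm := ⟨fun s t h => ⟨h.1.symm, by
    obtain ⟨z, w, h1, h2, h3⟩ := h.2
    exact ⟨w, z, h2, h1, h3.symm⟩⟩⟩
  loopless := ⟨fun _ h => h.1 rfl⟩

theorem tg_adj {N : Set V} {lab : V → I} {s t : Tile N lab} : (Tg N lab).Adj s t ↔
    s ≠ t ∧ ∃ z w : N, til lab z = s ∧ til lab w = t ∧ Adj z.1 w.1 := Iff.rfl

theorem til_eq_or_adj {N : Set V} {lab : V → I} {a b : N} (h : Adj a.1 b.1) :
    til lab a = til lab b ∨ (Tg N lab).Adj (til lab a) (til lab b) := by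
  by_cases h1 : til lab a = til lab b
  · exact Or.inl h1
  · exact Or.inr ⟨h1, a, b, rfl, rfl, h⟩

theorem tile_finite {N : Set V} (lab : V → I) (h : N.Finite) : Finite (Tile N lab) := by
  have := h.to_subtype
  unfold Tile
  infer_instance

/-- The points of a set of tiles. -/
def cells {N : Set V} {lab : V → I} (C : Set (Tile N lab)) : Set V :=
  {z | ∃ h : z ∈ N, til lab ⟨z, h⟩ ∈ C}

theorem cells_sub {N : Set V} {lab : V → I} (C : Set (Tile N lab)) : cells C ⊆ N :=
  fun _ h => h.1

theorem mem_cells {N : Set V} {lab : V → I} {C : Set (Tile N lab)} {a : N} :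
    a.1 ∈ cells C ↔ til lab a ∈ C :=
  ⟨fun h => h.2, fun h => ⟨a.2, h⟩⟩

theorem cells_disjoint {N : Set V} {lab : V → I} {C C' : Set (Tile N lab)} (h : Disjoint C C') :
    Disjoint (cells C) (cells C') :=
  Set.disjoint_left.2 fun _ h1 h2 => Set.disjoint_left.1 h h1.2 h2.2

theorem cells_mono {N : Set V} {lab : V → I} {C C' : Set (Tile N lab)} (h : C ⊆ C') :
    cells C ⊆ cells C' := fun _ h1 => ⟨h1.1, h h1.2⟩

theorem cells_univ {N : Set V} {lab : V → I} : cells (Set.univ : Set (Tile N lab)) = N := by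
  ext z
  exact ⟨fun h => h.1, fun h => ⟨h, trivial⟩⟩

/-- Every point outside a union of tiles is connected to a point outside `N`. -/
theorem exists_out {N : Set V} {lab : V → I} (h : Td N lab) (C : Set (Tile N lab)) {z : V}
    (hz : z ∉ cells C) : ∃ u, u ∉ N ∧ ReflTransGen (Stp (cells C)ᶜ) z u := by
  by_cases hzN : z ∈ N
  · obtain ⟨w, hw, hwl⟩ := h.out z hzN
    have h1 := h.blk z w hwl.symm
    clear hwl
    revert hz
    generalize lab z = l at h1
    clear hzN
    induction h1 using ReflTransGen.head_induction_on with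
    | refl => exact fun _ => ⟨w, hw, ReflTransGen.refl⟩
    | @head a c hac _ ih =>
      intro ha
      by_cases haN : a ∈ N
      · by_cases hcN : c ∈ N
        · have h2 : til lab ⟨a, haN⟩ = til lab ⟨c, hcN⟩ := by
            refine til_eq_of_adj hac.2.2 ?_
            have h3 : lab a = l := hac.1
            have h4 : lab c = l := hac.2.1
            show lab a = lab c
            rw [h3, h4]
          have h3 : c ∉ cells C := by
            intro h4
            exact ha ⟨haN, by rw [h2]; exact h4.2⟩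
          obtain ⟨u, hu, hr⟩ := ih h3
          exact ⟨u, hu, ReflTransGen.head ⟨ha, h3, hac.2.2⟩ hr⟩
        · have h3 : c ∉ cells C := fun h4 => hcN h4.1
          exact ⟨c, hcN, ReflTransGen.single ⟨ha, h3, hac.2.2⟩⟩
      · exact ⟨a, haN, ReflTransGen.refl⟩
  · exact ⟨z, hzN, ReflTransGen.refl⟩

theorem Stp.symm {N : Set V} {z w : V} (h : Stp N z w) : Stp N w z := ⟨h.2.1, h.1, h.2.2.symm⟩

theorem stp_mono {N M : Set V} (h : N ⊆ M) {z w : V} (hr : ReflTransGen (Stp N) z w) :
    ReflTransGen (Stp M) z w :=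
  rtg_mono (fun _ _ k => ⟨h k.1, h k.2.1, k.2.2⟩) hr

/-- (P4, i) The complement of a union of tiles is connected. -/
theorem cells_compl {N : Set V} {lab : V → I} (h : Td N lab) (C : Set (Tile N lab)) :
    Conn (cells C)ᶜ := by
  intro z hz w hw
  obtain ⟨u, hu, hzu⟩ := exists_out h C hz
  obtain ⟨v, hv, hwv⟩ := exists_out h C hw
  have h1 := stp_mono (Set.compl_subset_compl.2 (cells_sub C)) (h.compl u hu v hv)
  exact (hzu.trans h1).trans (rtg_symm (fun _ _ k => Stp.symm k) hwv)

/-- (P4, i) Every union of tiles is acyclic. -/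
theorem cells_acyclic {N : Set V} {lab : V → I} (h : Td N lab) (C : Set (Tile N lab)) :
    Acyclic (cells C) :=
  acyclic_of_compl (h.fin.subset (cells_sub C)) (cells_compl h C)

theorem Td.acyclic {N : Set V} {lab : V → I} (h : Td N lab) : Acyclic N :=
  acyclic_of_compl h.fin h.compl

/-- A tile is connected. -/
theorem tile_conn {N : Set V} {lab : V → I} {C : Set (Tile N lab)} {a b : N}
    (h : til lab a = til lab b) (ha : til lab a ∈ C) :
    ReflTransGen (Stp (cells C)) a.1 b.1 := by
  have h1 := til_eq_iff.1 h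
  clear h
  induction h1 with
  | refl => exact ReflTransGen.refl
  | @tail b c h1 h2 ih =>
    refine ih.tail ⟨mem_cells.2 ?_, mem_cells.2 ?_, h2.1⟩
    · rw [← til_eq_iff.2 h1]
      exact ha
    · rw [← til_eq_iff.2 (h1.tail h2)]
      exact ha

/-- (P4, ii) The points of a connected set of tiles are connected. -/
theorem cells_conn {N : Set V} {lab : V → I} {C : Set (Tile N lab)}
    (hC : ∀ s ∈ C, ∀ t ∈ C,
      ReflTransGen (fun x y => x ∈ C ∧ y ∈ C ∧ (Tg N lab).Adj x y) s t) : Conn (cells C) := by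
  have key : ∀ s t : Tile N lab, ReflTransGen (fun x y => x ∈ C ∧ y ∈ C ∧ (Tg N lab).Adj x y) s t →
      s ∈ C → ∀ a b : N, til lab a = s → til lab b = t → ReflTransGen (Stp (cells C)) a.1 b.1 := by
    intro s t hst hs
    induction hst with
    | refl =>
      intro a b ha hb
      exact tile_conn (ha.trans hb.symm) (by rw [ha]; exact hs)
    | @tail t u h1 h2 ih =>
      intro a b ha hb
      obtain ⟨ht, hu, _, z, w, hz, hw, hzw⟩ := h2
      have h3 := ih a z ha hz
      have h4 : Stp (cells C) z.1 w.1 :=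
        ⟨mem_cells.2 (by rw [hz]; exact ht), mem_cells.2 (by rw [hw]; exact hu), hzw⟩
      exact (h3.tail h4).trans (tile_conn (hw.trans hb.symm) (by rw [hw]; exact hu))
  intro z hz w hw
  exact key _ _ (hC _ hz.2 _ hw.2) hz.2 ⟨z, hz.1⟩ ⟨w, hw.1⟩ rfl rfl

/-- Every antisymmetric function on the edges of the graph of the tiles is a gradient. -/
theorem tile_gradient {N : Set V} {lab : V → I} (h : Td N lab) (F : Tile N lab → Tile N lab → ℤ)
    (hF : ∀ s t, F s t = - F t s) :
    ∃ ψ : Tile N lab → ℤ, ∀ s t, (Tg N lab).Adj s t → F s t = ψ t - ψ s := by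
  classical
  obtain ⟨θ, hθ⟩ : ∃ θ : V → V → ℤ, ∀ z w, θ z w =
      if hz : z ∈ N then if hw : w ∈ N then F (til lab ⟨z, hz⟩) (til lab ⟨w, hw⟩) else 0 else 0 :=
    ⟨_, fun _ _ => rfl⟩
  have h0 : ∀ s, F s s = 0 := by
    intro s
    have := hF s s
    omega
  have hθN : ∀ a b : N, θ a.1 b.1 = F (til lab a) (til lab b) := by
    intro a b
    rw [hθ, dif_pos a.2, dif_pos b.2]
  have hA : Anti θ := by
    intro z w
    rw [hθ, hθ]
    by_cases hz : z ∈ N
    · by_cases hw : w ∈ N
      · rw [dif_pos hz, dif_pos hw, dif_pos hw, dif_pos hz]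
        exact hF _ _
      · rw [dif_pos hz, dif_neg hw, dif_neg hw]
        rfl
    · by_cases hw : w ∈ N
      · rw [dif_neg hz, dif_pos hw, dif_neg hz]
        rfl
      · rw [dif_neg hz, dif_neg hw]
        rfl
  have hadj1 : ∀ (b : Bool) (z : V), Adj z (z + mid b) := by
    intro b z
    cases b
    · exact Or.inr (Or.inl rfl)
    · exact Or.inl rfl
  have hadj2 : ∀ z : V, Adj z (z + (1, 1)) := fun z => Or.inr (Or.inr (Or.inl rfl))
  have hadj3 : ∀ (b : Bool) (z : V), Adj (z + mid b) (z + (1, 1)) := by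
    intro b z
    cases b
    · left
      show z + (1, 1) = z + (0, 1) + (1, 0)
      rw [add_assoc]
      rfl
    · right
      left
      show z + (1, 1) = z + (1, 0) + (0, 1)
      rw [add_assoc]
      rfl
  have hcl : ClosedOn N θ := by
    intro b z hz hm hd
    unfold curl
    have e1 := hθN ⟨z, hz⟩ ⟨_, hm⟩
    have e2 := hθN ⟨_, hm⟩ ⟨_, hd⟩
    have e3 := hθN ⟨z, hz⟩ ⟨_, hd⟩
    simp only at e1 e2 e3
    rw [e1, e2, e3]
    rcases h.tri b z hz hm hd with hl | hl | hl
    · have e4 : til lab ⟨z, hz⟩ = til lab ⟨z + mid b, hm⟩ := til_eq_of_adj (hadj1 b z) hl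
      rw [e4, h0]
      ring
    · have e4 : til lab ⟨z + mid b, hm⟩ = til lab ⟨z + (1, 1), hd⟩ := til_eq_of_adj (hadj3 b z) hl
      rw [e4, h0]
      ring
    · have e4 : til lab ⟨z, hz⟩ = til lab ⟨z + (1, 1), hd⟩ := til_eq_of_adj (hadj2 z) hl
      rw [e4, h0, hF]
      ring
  obtain ⟨f, hf⟩ := h.acyclic θ hA hcl
  have hft : ∀ a b : N, til lab a = til lab b → f a.1 = f b.1 := by
    intro a b hab
    have h1 := til_eq_iff.1 hab
    clear hab
    induction h1 with
    | refl => rfl
    | @tail b c h1 h2 ih =>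
      have h3 := hf b.1 b.2 c.1 c.2 h2.1
      rw [hθN, til_eq_of_adj h2.1 h2.2, h0] at h3
      omega
  refine ⟨Quotient.lift (fun a : N => f a.1) fun a b hab => hft a b (til_eq_iff.2 hab), ?_⟩
  rintro s t ⟨_, z, w, rfl, rfl, hzw⟩
  have h3 := hf z.1 z.2 w.1 w.2 hzw
  rw [hθN] at h3
  exact h3

/-- (P4, iii) The graph of the tiles is a tree. -/
theorem tile_tree {N : Set V} {lab : V → I} (h : Td N lab) (hN : Conn N) (hne : N.Nonempty) :
    (Tg N lab).IsTree := by
  classical
  have hreach : ∀ a b : N, (Tg N lab).Reachable (til lab a) (til lab b) := by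
    have key : ∀ z w : V, ReflTransGen (Stp N) z w → ∀ (hz : z ∈ N) (hw : w ∈ N),
        (Tg N lab).Reachable (til lab ⟨z, hz⟩) (til lab ⟨w, hw⟩) := by
      intro z w hzw
      induction hzw with
      | refl => exact fun _ _ => SimpleGraph.Reachable.refl _
      | @tail b c h1 h2 ih =>
        intro hz hc
        refine (ih hz h2.1).trans ?_
        rcases til_eq_or_adj (lab := lab) (a := ⟨b, h2.1⟩) (b := ⟨c, hc⟩) h2.2.2 with h3 | h3
        · rw [h3]
        · exact h3.reachable
    exact fun a b => key a.1 b.1 (hN a.1 a.2 b.1 b.2) a.2 b.2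
  obtain ⟨z0, hz0⟩ := hne
  have hcon : (Tg N lab).Connected := by
    have : Nonempty (Tile N lab) := ⟨til lab ⟨z0, hz0⟩⟩
    refine ⟨fun s t => ?_⟩
    obtain ⟨a, rfl⟩ := til_surj s
    obtain ⟨b, rfl⟩ := til_surj t
    exact hreach a b
  refine ⟨hcon, ?_⟩
  rw [SimpleGraph.isAcyclic_iff_forall_adj_isBridge]
  intro s t hst
  rw [SimpleGraph.isBridge_iff]
  obtain ⟨F, hF⟩ : ∃ F : Tile N lab → Tile N lab → ℤ, ∀ x y, F x y =
      (if x = s ∧ y = t then 1 else 0) - (if y = s ∧ x = t then 1 else 0) := ⟨_, fun _ _ => rfl⟩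
  obtain ⟨ψ, hψ⟩ := tile_gradient h F fun x y => by rw [hF, hF]; ring
  have hne : s ≠ t := hst.1
  have h1 : F s t = 1 := by
    rw [hF, if_pos ⟨rfl, rfl⟩, if_neg (fun k => hne k.1.symm)]
    ring
  have h2 : ψ t - ψ s = 1 := by rw [← hψ s t hst, h1]
  have h3 : ∀ x y, (Tg N lab \ SimpleGraph.fromEdgeSet {s(s, t)}).Reachable x y → ψ x = ψ y := by
    rintro x y ⟨p⟩
    induction p with
    | nil => rfl
    | @cons x y z hxy _ ih =>
      rw [← ih]
      rw [SimpleGraph.sdiff_adj, SimpleGraph.fromEdgeSet_adj] at hxy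
      obtain ⟨hadj, hnot⟩ := hxy
      have h4 := hψ x y hadj
      have h5 : F x y = 0 := by
        rw [hF, if_neg, if_neg]
        · ring
        · rintro ⟨rfl, rfl⟩
          exact hnot ⟨by rw [Set.mem_singleton_iff, Sym2.eq_swap], hadj.1⟩
        · rintro ⟨rfl, rfl⟩
          exact hnot ⟨Set.mem_singleton _, hadj.1⟩
      omega
  first
    | exact ⟨hst, fun hr => by have := h3 s t hr; omega⟩
    | exact fun hr => by have := h3 s t hr; omega

end Pool.Agent.Lib.MP_40f35d_gt.Pl
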