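import Pool.Agent.Lib.MP_40f35d_gt.Pl.P0

/-!
# Gluing potentials along a tree
-/

set_option autoImplicit false

namespace Pool.Agent.Lib.MP_40f35d_gt.Pl

/-- The sum of a function on the edges along a walk. -/
def wsum {T : Type} {G : SimpleGraph T} (k : T → T → ℤ) : ∀ {u v : T}, G.Walk u v → ℤ
  | _, _, .nil => 0
  | _, _, .cons (u := u) (v := v) _ p => k u v + wsum k p

theorem wsum_append {T : Type} {G : SimpleGraph T} (k : T → T → ℤ) {u v w : T} (p : G.Walk u v)
    (q : G.Walk v w) : wsum k (p.append q) = wsum k p + wsum k q := by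
  induction p with
  | nil => simp [wsum]
  | cons h p ih => simp [wsum, ih, add_assoc]

theorem wsum_concat {T : Type} {G : SimpleGraph T} (k : T → T → ℤ) {u v w : T} (p : G.Walk u v)
    (h : G.Adj v w) : wsum k (p.concat h) = wsum k p + k v w := by
  rw [SimpleGraph.Walk.concat_eq_append, wsum_append]
  simp [wsum]

/-- An antisymmetric function on the edges of a tree has a potential. -/
theorem tree_pot {T : Type} {G : SimpleGraph T} (hG : G.IsTree) (k : T → T → ℤ)
    (hk : ∀ i j, G.Adj i j → k i j = - k j i) :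
    ∃ c : T → ℤ, ∀ i j, G.Adj i j → k i j = c j - c i := by
  classical
  obtain ⟨r⟩ := hG.connected.nonempty
  have hex : ∀ v, ∃ p : G.Walk r v, p.IsPath := fun v =>
    ⟨(hG.connected.preconnected r v).some.bypass, SimpleGraph.Walk.bypass_isPath _⟩
  choose P hP using hex
  have huniq : ∀ v (p : G.Walk r v), p.IsPath → p = P v := fun v p hp =>
    (hG.existsUnique_path r v).unique hp (hP v)
  have key : ∀ i j (h : G.Adj i j), i ∉ (P j).support → j ∉ (P i).support → False := by
    intro i j h hi hj
    have h1 : (P i).concat h = P j := huniq j _ ((hP i).concat hj h)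
    apply hi
    rw [← h1, SimpleGraph.Walk.support_concat]
    simp
  have key2 : ∀ i j, G.Adj i j → j ∉ (P i).support → k i j = wsum k (P j) - wsum k (P i) := by
    intro i j h hj
    rw [← huniq j _ ((hP i).concat hj h), wsum_concat]
    ring
  refine ⟨fun v => wsum k (P v), fun i j h => ?_⟩
  by_cases hj : j ∈ (P i).support
  · have hi : i ∉ (P j).support := by
      intro hi
      have h1 : (P i).takeUntil j hj = P j := huniq j _ ((hP i).takeUntil hj)
      have h2 : i ∈ ((P i).takeUntil j hj).support := by rw [h1]; exact hi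
      have h3 : ((P i).takeUntil j hj).takeUntil i h2 = P i :=
        huniq i _ (((hP i).takeUntil hj).takeUntil h2)
      have h4 := ((P i).takeUntil j hj).length_takeUntil_le_length h2
      rw [h3] at h4
      have h5 := (P i).take_spec hj
      have h6 := congrArg SimpleGraph.Walk.length h5
      rw [SimpleGraph.Walk.length_append] at h6
      have h7 : ((P i).dropUntil j hj).length = 0 := by omega
      exact h.ne' (SimpleGraph.Walk.eq_of_length_eq_zero h7)
    have h8 := key2 j i h.symm hi
    rw [hk i j h, h8]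
    ring
  · exact key2 i j h hj

/-- Local potentials which agree up to constants along the edges of a tree of labels. -/
theorem glue {T : Type} {G : SimpleGraph T} (hG : G.IsTree) {N : Set V} {θ : V → V → ℤ}
    (hθ : Anti θ) (l : V → T)
    (hl : ∀ z ∈ N, ∀ w ∈ N, Adj z w → l z = l w ∨ G.Adj (l z) (l w)) (P : T → V → ℤ)
    (hP : ∀ z ∈ N, ∀ w ∈ N, Adj z w → θ z w = P (l z) w - P (l z) z)
    (hc : ∀ z ∈ N, ∀ w ∈ N, ∀ z' ∈ N, ∀ w' ∈ N, Adj z w → Adj z' w' → G.Adj (l z) (l w) →
      l z = l z' → l w = l w' → P (l w) w - P (l z) w = P (l w) w' - P (l z) w') :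
    ExactOn N θ := by
  classical
  set R : T → T → V × V → Prop := fun i j e =>
    e.1 ∈ N ∧ e.2 ∈ N ∧ Adj e.1 e.2 ∧ l e.1 = i ∧ l e.2 = j with hR
  set k : T → T → ℤ := fun i j => if h : ∃ e, R i j e then
    P j h.choose.2 - P i h.choose.2 else 0 with hk
  have hkv : ∀ z ∈ N, ∀ w ∈ N, Adj z w → G.Adj (l z) (l w) →
      k (l z) (l w) = P (l w) w - P (l z) w := by
    intro z hz w hw h1 h2
    have h : ∃ e, R (l z) (l w) e := ⟨(z, w), hz, hw, h1, rfl, rfl⟩
    obtain ⟨a1, a2, a3, a4, a5⟩ := h.choose_spec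
    simp only [hk]
    rw [dif_pos h]
    exact (hc z hz w hw _ a1 _ a2 h1 a3 h2 a4.symm a5.symm).symm
  obtain ⟨c, hcc⟩ := tree_pot hG k (by
    intro i j hij
    by_cases h : ∃ e, R i j e
    · obtain ⟨⟨z, w⟩, hz, hw, h1, rfl, rfl⟩ := h
      dsimp only at hij ⊢
      rw [hkv z hz w hw h1 hij, hkv w hw z hz h1.symm hij.symm]
      have e1 := hP z hz w hw h1
      have e2 := hP w hw z hz h1.symm
      have e3 := hθ z w
      linarith
    · have h' : ¬ ∃ e, R j i e := by
        rintro ⟨⟨z, w⟩, hz, hw, h1, h2, h3⟩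
        exact h ⟨(w, z), hw, hz, h1.symm, h3, h2⟩
      simp only [hk]
      rw [dif_neg h, dif_neg h', neg_zero])
  refine ⟨fun z => P (l z) z - c (l z), fun z hz w hw h => ?_⟩
  have e1 := hP z hz w hw h
  change θ z w = (P (l w) w - c (l w)) - (P (l z) z - c (l z))
  rcases hl z hz w hw h with h2 | h2
  · rw [← h2]
    linarith
  · have e2 := hkv z hz w hw h h2
    have e3 := hcc _ _ h2
    linarith

end Pool.Agent.Lib.MP_40f35d_gt.Pl
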