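import Pool.Agent.Lib.MP_40f35d_gt.Defs
import Pool.Agent.Lib.MP_40f35d_gt.Pl.Pt
import Pool.Agent.Lib.MP_40f35d_gt.Pl.W0

/-!
# The cuts are exact near a tree-like continuum
-/

set_option autoImplicit false

open Set

namespace Pool.Agent.Lib.MP_40f35d_gt.Pl

/-- `kap true v` on an edge whose ends are not on the cut. -/
theorem kap_zero {v z w : V} (hz : ¬ (z.2 = v.2 ∧ v.1 + 1 ≤ z.1))
    (hw : ¬ (w.2 = v.2 ∧ v.1 + 1 ≤ w.1)) : kap true v z w = 0 := by
  have h1 : ¬ (w = z + (0, 1) ∧ z.2 = v.2 ∧ v.1 + 1 ≤ z.1) := fun h => hz h.2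
  have h2 : ¬ (w = z + (1, 1) ∧ z.2 = v.2 ∧ (if true = true then v.1 + 1 ≤ z.1 else v.1 ≤ z.1)) :=
    fun h => hz ⟨h.2.1, by simpa using h.2.2⟩
  have h3 : ¬ (z = w + (0, 1) ∧ w.2 = v.2 ∧ v.1 + 1 ≤ w.1) := fun h => hw h.2
  have h4 : ¬ (z = w + (1, 1) ∧ w.2 = v.2 ∧ (if true = true then v.1 + 1 ≤ w.1 else v.1 ≤ w.1)) :=
    fun h => hw ⟨h.2.1, by simpa using h.2.2⟩
  unfold kap
  rw [if_neg h1, if_neg h2, if_neg h3, if_neg h4]
  ring

/-- `kap true v` on an edge to the right of the vertex. -/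
theorem kap_right {v z w : V} (hz : z.2 = v.2 → v.1 + 1 ≤ z.1) (hw : w.2 = v.2 → v.1 + 1 ≤ w.1)
    (h : Adj z w) : kap true v z w =
      (if v.2 + 1 ≤ w.2 then 1 else 0) - (if v.2 + 1 ≤ z.2 then 1 else 0) := by
  obtain ⟨a, b⟩ := z
  obtain ⟨a', b'⟩ := w
  obtain ⟨p, q⟩ := v
  simp only [Adj, Prod.mk_add_mk, Prod.mk.injEq] at h
  simp only at hz hw
  simp only [kap, Prod.mk_add_mk, Prod.mk.injEq, if_true]
  split_ifs <;> omega

/-- Every label map: the cut is exact. -/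
theorem exact_near {X : Set E2} (hX : IsCompact X) (hT : TreeLike X) {e : ℝ} (he : 0 < e) :
    ∃ r : ℝ, 0 < r ∧ ∀ (o : E2) (d : ℝ), 0 < d → d < r → ∀ (v : V) (N : Set V),
      (∀ z ∈ N, (∃ x ∈ X, dist (pt o d z) x < r) ∧ e ≤ dist (pt o d z) (pt o d v)) →
      ExactOn N (kap true v) := by
  classical
  obtain ⟨n, U, hU, hXU, hdiam, htree, -⟩ := hT (e / 64) (by positivity)
  obtain ⟨r0, hr0, hleb⟩ := lebesgue_number_lemma_of_metric hX hU hXU
  have hbd : ∀ i, Bornology.IsBounded (U i ∩ X) := fun i =>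
    hX.isBounded.subset inter_subset_right
  refine ⟨min (r0 / 4) (e / 64), lt_min (by positivity) (by positivity), ?_⟩
  intro o d hd hdr v N hN
  have hr1 : min (r0 / 4) (e / 64) ≤ r0 / 4 := min_le_left _ _
  have hr2 : min (r0 / 4) (e / 64) ≤ e / 64 := min_le_right _ _
  set r := min (r0 / 4) (e / 64) with hr
  -- the point near a cell and its label
  have hx : ∀ z : V, ∃ x : E2, ∃ i : Fin n, z ∈ N → x ∈ X ∧ dist (pt o d z) x < r ∧
      Metric.ball x r0 ⊆ U i := by
    intro z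
    obtain ⟨i0⟩ := htree.connected.nonempty
    by_cases hz : z ∈ N
    · obtain ⟨x, hxX, hxd⟩ := (hN z hz).1
      obtain ⟨i, hi⟩ := hleb x hxX
      exact ⟨x, i, fun _ => ⟨hxX, hxd, hi⟩⟩
    · exact ⟨0, i0, fun h => absurd h hz⟩
  choose x l hxl using hx
  -- centres
  have hc : ∀ i : Fin n, ∃ c : E2, (U i ∩ X).Nonempty → c ∈ U i ∩ X := by
    intro i
    by_cases h : (U i ∩ X).Nonempty
    · exact ⟨h.some, fun _ => h.some_mem⟩
    · exact ⟨0, fun h' => absurd h' h⟩
  choose c hc using hc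
  have hxU : ∀ z ∈ N, x z ∈ U (l z) ∩ X := fun z hz =>
    ⟨(hxl z hz).2.2 (Metric.mem_ball_self hr0), (hxl z hz).1⟩
  have hcU : ∀ z ∈ N, c (l z) ∈ U (l z) ∩ X := fun z hz => hc _ ⟨_, hxU z hz⟩
  -- a cell is near the centre of its label
  have near1 : ∀ z ∈ N, dist (pt o d z) (c (l z)) < e / 32 := by
    intro z hz
    have h1 := dist_triangle (pt o d z) (x z) (c (l z))
    have h2 := Metric.dist_le_diam_of_mem (hbd (l z)) (hxU z hz) (hcU z hz)
    have h3 := hdiam (l z)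
    have h4 := (hxl z hz).2.1
    linarith
  have near2 : ∀ z ∈ N, ∀ w ∈ N, Adj z w → dist (pt o d w) (c (l z)) < e / 16 := by
    intro z hz w hw h
    have h1 := dist_triangle (pt o d w) (pt o d z) (c (l z))
    have h2 := near1 z hz
    have h3 := dist_pt_adj o hd.le h.symm
    linarith
  -- labels of adjacent cells
  have hl : ∀ z ∈ N, ∀ w ∈ N, Adj z w → l z = l w ∨
      (SimpleGraph.fromRel (fun i j => (U i ∩ U j ∩ X).Nonempty)).Adj (l z) (l w) := by
    intro z hz w hw h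
    by_cases hlw : l z = l w
    · exact Or.inl hlw
    · refine Or.inr ?_
      rw [SimpleGraph.fromRel_adj]
      refine ⟨hlw, Or.inl ⟨x w, ⟨(hxl z hz).2.2 ?_, (hxU w hw).1⟩, (hxU w hw).2⟩⟩
      rw [Metric.mem_ball]
      have h1 := dist_triangle (x w) (pt o d w) (x z)
      have h2 := dist_triangle (pt o d w) (pt o d z) (x z)
      have h3 := dist_pt_adj o hd.le h.symm
      have h4 := (hxl z hz).2.1
      have h5 := (hxl w hw).2.1
      rw [dist_comm] at h5
      linarith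
  -- the type of a label
  set ty : Fin n → Prop := fun i =>
    (pt o d v) 0 < (c i) 0 ∧ |(c i) 1 - (pt o d v) 1| < e / 4 with hty
  set P : Fin n → V → ℤ := fun i z =>
    if ty i then (if v.2 + 1 ≤ z.2 then 1 else 0) else 0 with hPd
  -- geometry of a cell
  have geo : ∀ u ∈ N, u.2 = v.2 → v.1 + 1 ≤ u.1 → (pt o d v) 0 + e ≤ (pt o d u) 0 := by
    intro u hu h1 h2
    have h3 := (hN u hu).2
    have h4 := dist_le_add (pt o d u) (pt o d v)
    rw [pt_one, pt_one, h1, sub_self, abs_zero, add_zero] at h4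
    have h5 : (0 : ℝ) ≤ (pt o d u) 0 - (pt o d v) 0 := by
      rw [pt_zero, pt_zero]
      have h6 : (v.1 : ℝ) ≤ u.1 := by exact_mod_cast (by omega : v.1 ≤ u.1)
      nlinarith
    rw [abs_of_nonneg h5] at h4
    linarith
  have geo2 : ∀ u ∈ N, u.2 = v.2 → (pt o d v) 0 - e < (pt o d u) 0 → v.1 + 1 ≤ u.1 := by
    intro u hu h1 h2
    by_contra h3
    have h4 := (hN u hu).2
    have h5 := dist_le_add (pt o d u) (pt o d v)
    rw [pt_one, pt_one, h1, sub_self, abs_zero, add_zero] at h5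
    have h6 : (pt o d u) 0 - (pt o d v) 0 ≤ 0 := by
      rw [pt_zero, pt_zero]
      have h7 : (u.1 : ℝ) ≤ v.1 := by exact_mod_cast (by omega : u.1 ≤ v.1)
      nlinarith
    rw [abs_of_nonpos h6] at h5
    linarith
  -- the cell `u` is near a centre of false type
  have ntyp : ∀ i, ¬ ty i → ∀ u ∈ N, dist (pt o d u) (c i) < e / 16 →
      ¬ (u.2 = v.2 ∧ v.1 + 1 ≤ u.1) := by
    intro i hi u hu hd1 h
    apply hi
    have h1 := geo u hu h.1 h.2
    have h2 := (abs_lt.1 ((abs0_le (pt o d u) (c i)).trans_lt hd1))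
    have h3 := (abs_lt.1 ((abs1_le (pt o d u) (c i)).trans_lt hd1))
    have h4 : (pt o d u) 1 = (pt o d v) 1 := by rw [pt_one, pt_one, h.1]
    refine ⟨by linarith, abs_lt.2 ⟨by linarith, by linarith⟩⟩
  have typ : ∀ i, ty i → ∀ u ∈ N, dist (pt o d u) (c i) < e / 16 → u.2 = v.2 →
      v.1 + 1 ≤ u.1 := by
    intro i hi u hu hd1 h
    refine geo2 u hu h ?_
    have h2 := (abs_lt.1 ((abs0_le (pt o d u) (c i)).trans_lt hd1))
    have h3 := hi.1
    linarith
  have hmix : ∀ i j, ty i → ¬ ty j → ∀ u ∈ N, ∀ u' ∈ N, dist (pt o d u) (c i) < e / 16 →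
      dist (pt o d u) (c j) < e / 16 → dist (pt o d u') (c j) < e / 16 →
      (v.2 + 1 ≤ u.2 ↔ v.2 + 1 ≤ u'.2) := by
    intro i j hi hj u hu u' hu' h1 h2 h3
    have a1 := (abs_lt.1 ((abs0_le (pt o d u) (c i)).trans_lt h1))
    have a2 := (abs_lt.1 ((abs1_le (pt o d u) (c i)).trans_lt h1))
    have a3 := (abs_lt.1 ((abs0_le (pt o d u) (c j)).trans_lt h2))
    have a4 := (abs_lt.1 ((abs1_le (pt o d u) (c j)).trans_lt h2))
    have a5 := (abs_lt.1 ((abs1_le (pt o d u') (c j)).trans_lt h3))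
    have a6 := hi.1
    have a7 := abs_lt.1 hi.2
    have a8 := (hN u hu).2
    have a9 := dist_le_add (pt o d u) (pt o d v)
    have b1 : |(pt o d u) 1 - (pt o d v) 1| < e / 4 + e / 16 := abs_lt.2
      ⟨by linarith, by linarith⟩
    have b2 : (0 : ℝ) < (pt o d u) 0 - (pt o d v) 0 := by
      by_contra hcon
      rw [abs_of_nonpos (not_lt.1 hcon)] at a9
      linarith
    rw [abs_of_pos b2] at a9
    have b3 : (pt o d v) 0 < (c j) 0 := by linarith
    have b4 : ¬ |(c j) 1 - (pt o d v) 1| < e / 4 := fun h => hj ⟨b3, h⟩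
    rw [not_lt, le_abs] at b4
    have b5 : ∀ w : V, (pt o d v) 1 < (pt o d w) 1 → v.2 + 1 ≤ w.2 := by
      intro w hw
      rw [pt_one, pt_one] at hw
      have : (v.2 : ℝ) < w.2 := by
        by_contra hcon
        nlinarith
      have : v.2 < w.2 := by exact_mod_cast this
      omega
    have b6 : ∀ w : V, (pt o d w) 1 < (pt o d v) 1 → ¬ v.2 + 1 ≤ w.2 := by
      intro w hw h
      rw [pt_one, pt_one] at hw
      have : (v.2 : ℝ) ≤ w.2 := by exact_mod_cast (by omega : v.2 ≤ w.2)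
      nlinarith
    rcases b4 with b4 | b4
    · exact iff_of_true (b5 u (by linarith)) (b5 u' (by linarith))
    · exact iff_of_false (b6 u (by linarith)) (b6 u' (by linarith))
  refine glue htree (kap_anti true v) l hl P ?_ ?_
  · intro z hz w hw h
    have h1 : dist (pt o d z) (c (l z)) < e / 16 := (near1 z hz).trans (by linarith)
    have h2 := near2 z hz w hw h
    by_cases hi : ty (l z)
    · simp only [hPd, if_pos hi]
      exact kap_right (typ _ hi z hz h1) (typ _ hi w hw h2) h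
    · simp only [hPd, if_neg hi, sub_self]
      exact kap_zero (ntyp _ hi z hz h1) (ntyp _ hi w hw h2)
  · intro z hz w hw z' hz' w' hw' h h' _ hl1 hl2
    have h1 : dist (pt o d w) (c (l w)) < e / 16 := (near1 w hw).trans (by linarith)
    have h2 := near2 z hz w hw h
    have h3 : dist (pt o d w') (c (l w)) < e / 16 := by
      rw [hl2]
      exact (near1 w' hw').trans (by linarith)
    have h4 : dist (pt o d w') (c (l z)) < e / 16 := by
      rw [hl1]
      exact near2 z' hz' w' hw' h'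
    by_cases hi : ty (l z) <;> by_cases hj : ty (l w)
    · simp only [hPd, if_pos hi, if_pos hj, sub_self]
    · have h5 := hmix _ _ hi hj w hw w' hw' h2 h1 h3
      simp only [hPd, if_pos hi, if_neg hj, h5]
    · have h5 := hmix _ _ hj hi w hw w' hw' h1 h2 h4
      simp only [hPd, if_neg hi, if_pos hj, h5]
    · simp only [hPd, if_neg hi, if_neg hj]

end Pool.Agent.Lib.MP_40f35d_gt.Pl
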